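import Pool.Agent.U147.Sat.Sum

/-!
# Lower bound for the probability of unsatisfiability inside the scaling window
-/

set_option autoImplicit false

open Finset

namespace Pool.Agent.U147.Sat

section real

variable {K : ℕ}

theorem real_q (hK : 4 ≤ K) {n m N : ℕ} (hn : n = 1000 * K ^ 3) (hm : m = n - 20 * K ^ 2)
    (hN : N = 2 * n * (n - 1)) :
    (m : ℝ) = n - 20 * K ^ 2 ∧ (N : ℝ) = 2 * n * (n - 1) ∧ (n : ℝ) = 1000 * K ^ 3 ∧
      (4 : ℝ) ≤ K ∧ m ≤ N := by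
  have h0 : (4 : ℝ) ≤ K := by exact_mod_cast hK
  have h1 : 20 * K ^ 2 ≤ n := by
    rw [hn]
    calc 20 * K ^ 2 ≤ 20 * K ^ 2 * K := Nat.le_mul_of_pos_right _ (by omega)
      _ = 20 * K ^ 3 := by ring
      _ ≤ 1000 * K ^ 3 := Nat.mul_le_mul_right _ (by norm_num)
  have h2 : 1000 ≤ n := by
    rw [hn]
    have : 1 ≤ K ^ 3 := Nat.one_le_pow _ _ (by omega)
    omega
  refine ⟨?_, ?_, ?_, h0, ?_⟩
  · rw [hm, Nat.cast_sub h1]
    push_cast
    ring
  · rw [hN]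
    push_cast [Nat.cast_sub (show 1 ≤ n by omega)]
    ring
  · rw [hn]
    push_cast
    ring
  · rw [hm, hN]
    calc n - 20 * K ^ 2 ≤ n := Nat.sub_le _ _
      _ = n * 1 := by rw [mul_one]
      _ ≤ n * (2 * (n - 1)) := Nat.mul_le_mul_left _ (by omega)
      _ = _ := by ring

variable {n m N : ℝ} {k : ℝ}

theorem real_q1 (hk : 4 ≤ k) (hn : n = 1000 * k ^ 3) (hm : m = n - 20 * k ^ 2)
    (hN : N = 2 * n * (n - 1)) : m / N * (2 * n) ≤ 1 := by
  have h1 : 0 < k ^ 2 := by positivity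
  have h3 : 1000 ≤ n := by
    rw [hn]
    nlinarith [pow_le_pow_left₀ (by norm_num : (0 : ℝ) ≤ 4) hk 3]
  have h4 : 0 < N := by
    rw [hN]
    have : 0 < n - 1 := by linarith
    positivity
  rw [div_mul_eq_mul_div, div_le_one h4, hN, hm]
  have h5 : (16 : ℝ) ≤ k ^ 2 := by nlinarith
  nlinarith

theorem real_q3 (hk : 4 ≤ k) (hn : n = 1000 * k ^ 3) (hm : m = n - 20 * k ^ 2)
    (hN : N = 2 * n * (n - 1)) : 49 / 100 / (1000 * k ^ 3) ≤ m / N := by
  have h1 : 0 < k ^ 2 := by positivity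
  have h3 : 1000 ≤ n := by
    rw [hn]
    nlinarith [pow_le_pow_left₀ (by norm_num : (0 : ℝ) ≤ 4) hk 3]
  have h4 : 0 < N := by
    rw [hN]
    have : 0 < n - 1 := by linarith
    positivity
  rw [← hn, div_le_div_iff₀ (by linarith) h4, hN, hm]
  have h5 : 20 * k ^ 2 ≤ n / 100 := by
    rw [hn]
    nlinarith
  nlinarith

theorem real_base (hk : 4 ≤ k) (hn : n = 1000 * k ^ 3) (hm : m = n - 20 * k ^ 2)
    (hN : N = 2 * n * (n - 1)) {v : ℝ} (hv0 : 0 ≤ v) (hv : v ≤ 7 * k) :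
    1 - 27 / (1000 * k) ≤ 2 * (n + 1 - v) * (m / N) := by
  have h1 : 0 < k ^ 2 := by positivity
  have h3 : 1000 ≤ n := by
    rw [hn]
    nlinarith [pow_le_pow_left₀ (by norm_num : (0 : ℝ) ≤ 4) hk 3]
  have h4 : 0 < N := by
    rw [hN]
    have : 0 < n - 1 := by linarith
    positivity
  have hk0 : 0 < k := by linarith
  have h5 : 20 * k ^ 2 ≤ n := by
    rw [hn]
    nlinarith
  have h6 : 1 - 27 / (1000 * k) = (n - 27 * k ^ 2) / n := by
    rw [hn]
    field_simp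
  have h7 : 2 * (n + 1 - v) * (m / N) = ((n + 1 - v) * m) / (n * (n - 1)) := by
    rw [hN]
    have : n - 1 ≠ 0 := by linarith
    have : n ≠ 0 := by linarith
    field_simp
  have h8 : 0 < n - 1 := by linarith
  rw [h6, h7, div_le_div_iff₀ (by linarith) (by positivity)]
  have h9 : (n - 27 * k ^ 2) * (n - 1) ≤ (n + 1 - v) * m := by
    rw [hm]
    have a1 : (n + 1 - 7 * k) * (n - 20 * k ^ 2) ≤ (n + 1 - v) * (n - 20 * k ^ 2) :=
      mul_le_mul_of_nonneg_right (by linarith) (by linarith)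
    have a2 : (n - 27 * k ^ 2) * (n - 1) ≤ (n + 1 - 7 * k) * (n - 20 * k ^ 2) := by
      have b1 : 0 ≤ k ^ 2 - k := by nlinarith
      have b2 : 0 ≤ (k ^ 2 - k) * n := mul_nonneg b1 (by linarith)
      have b3 : 0 < k ^ 3 := by positivity
      nlinarith
    exact a2.trans a1
  calc (n - 27 * k ^ 2) * (n * (n - 1)) = ((n - 27 * k ^ 2) * (n - 1)) * n := by ring
    _ ≤ ((n + 1 - v) * m) * n := mul_le_mul_of_nonneg_right h9 (by linarith)

end real

/-- the sum of the first moments is bounded below -/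
theorem Q_lower {K n : ℕ} (hK : 4 ≤ K) (hn : n = 1000 * K ^ 3) {q : ℝ}
    (hq0 : 0 ≤ q) (hq : 49 / 100 / (1000 * (K : ℝ) ^ 3) ≤ q)
    (hbase : ∀ v : ℝ, 0 ≤ v → v ≤ 7 * K → 1 - 27 / (1000 * (K : ℝ)) ≤ 2 * (n + 1 - v) * q) :
    392 / 1000000 ≤ ∑ i ∈ II n K, q ^ (SS i).card := by
  have hK4 : (4 : ℝ) ≤ K := by exact_mod_cast hK
  have hK0 : (0 : ℝ) < K := by linarith
  have h1 : ∑ i ∈ II n K, q ^ (SS i).card =
      ∑ t ∈ (Ico K (2 * K)) ×ˢ ((Ico K (2 * K)) ×ˢ (Ico K (2 * K))),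
        (((univ : Finset (Fin (t.1 + t.2.1 + t.2.2 + 5) → Lit n)).filter Gd).card : ℝ) *
          q ^ (t.1 + t.2.1 + t.2.2 + 6) := by
    unfold II
    rw [sum_sigma]
    refine sum_congr rfl fun t _ => ?_
    rw [← nsmul_eq_mul, ← sum_const]
    refine sum_congr rfl fun p hp => ?_
    rw [SS_card (i := ⟨t, p⟩) (mem_filter.1 hp).2]
  rw [h1]
  have h2 : ∀ t ∈ (Ico K (2 * K)) ×ˢ ((Ico K (2 * K)) ×ˢ (Ico K (2 * K))),
      392 / 1000000 / (K : ℝ) ^ 3 ≤
      (((univ : Finset (Fin (t.1 + t.2.1 + t.2.2 + 5) → Lit n)).filter Gd).card : ℝ) *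
          q ^ (t.1 + t.2.1 + t.2.2 + 6) := by
    intro t ht
    rw [mem_product, mem_product, mem_Ico, mem_Ico, mem_Ico] at ht
    set v := t.1 + t.2.1 + t.2.2 + 5 with hv
    have hv7 : v ≤ 7 * K := by omega
    have hvn : v ≤ n + 1 := by
      rw [hn]
      have : K ≤ K ^ 3 := Nat.le_self_pow (by norm_num) K
      omega
    have hvR : (v : ℝ) ≤ 7 * K := by exact_mod_cast hv7
    have h3 := card_good (n := n) v
    have h4 : (2 * ((n : ℝ) + 1 - v)) ^ v ≤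
        (((univ : Finset (Fin v → Lit n)).filter Gd).card : ℝ) := by
      have : (((2 * (n + 1 - v)) ^ v : ℕ) : ℝ) ≤
        (((univ : Finset (Fin v → Lit n)).filter Gd).card : ℝ) := by exact_mod_cast h3
      push_cast [Nat.cast_sub hvn] at this
      exact this
    have h5 := hbase v (Nat.cast_nonneg _) hvR
    have h6 : (27 : ℝ) / (1000 * K) ≤ 1 := by
      rw [div_le_one (by positivity)]
      linarith
    have h7 : 1 + (v : ℝ) * (-(27 / (1000 * (K : ℝ)))) ≤ (1 + (-(27 / (1000 * (K : ℝ))))) ^ v :=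
      one_add_mul_le_pow (by linarith) v
    have h8 : (v : ℝ) * (27 / (1000 * (K : ℝ))) ≤ 2 / 10 := by
      calc (v : ℝ) * (27 / (1000 * (K : ℝ))) ≤ (7 * K) * (27 / (1000 * (K : ℝ))) :=
            mul_le_mul_of_nonneg_right hvR (by positivity)
        _ = 189 / 1000 := by field_simp; norm_num
        _ ≤ 2 / 10 := by norm_num
    have h9 : 8 / 10 ≤ (2 * ((n : ℝ) + 1 - v) * q) ^ v := by
      calc (8 : ℝ) / 10 ≤ (1 + (-(27 / (1000 * (K : ℝ))))) ^ v := by linarith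
        _ ≤ _ := pow_le_pow_left₀ (by linarith) (by linarith) v
    calc 392 / 1000000 / (K : ℝ) ^ 3 = 8 / 10 * (49 / 100 / (1000 * (K : ℝ) ^ 3)) := by
          field_simp
          norm_num
      _ ≤ (2 * ((n : ℝ) + 1 - v) * q) ^ v * q :=
          mul_le_mul h9 hq (by positivity) (by linarith)
      _ = (2 * ((n : ℝ) + 1 - v)) ^ v * q ^ (v + 1) := by rw [mul_pow, pow_succ]; ring
      _ ≤ _ := mul_le_mul_of_nonneg_right h4 (pow_nonneg hq0 _)
  calc (392 : ℝ) / 1000000 = ∑ t ∈ (Ico K (2 * K)) ×ˢ ((Ico K (2 * K)) ×ˢ (Ico K (2 * K))),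
        392 / 1000000 / (K : ℝ) ^ 3 := by
        rw [sum_const, card_product, card_product, Nat.card_Ico, nsmul_eq_mul]
        have : 2 * K - K = K := by omega
        rw [this]
        push_cast
        field_simp
    _ ≤ _ := sum_le_sum h2

/-- the probability of unsatisfiability is bounded below -/
theorem unsat_lower {K n m N : ℕ} (hK : 4 ≤ K) (hn : n = 1000 * K ^ 3)
    (hm : m = n - 20 * K ^ 2) (hN : Fintype.card (Cl n) = N) :
    8 / 100000000 * (Fintype.card (Fin N ≃ Cl n) : ℝ) ≤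
      (((univ : Finset (Fin N ≃ Cl n)).filter fun e => ∃ i ∈ II n K, SS i ⊆ fst m e).card : ℝ) := by
  have hN' : N = 2 * n * (n - 1) := by rw [← hN, card_Cl]
  obtain ⟨r1, r2, r3, r4, r5⟩ := real_q hK hn hm hN'
  set q : ℝ := (m : ℝ) / N with hq
  have hq0 : 0 ≤ q := by positivity
  have hq1 : q * (2 * n) ≤ 1 := real_q1 r4 r3 r1 r2
  have hq2 : q * (2000 * (K : ℝ) ^ 3) ≤ 1 := by
    have : (2000 : ℝ) * (K : ℝ) ^ 3 = 2 * n := by rw [r3]; ring
    rw [this]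
    exact hq1
  have hQ : 392 / 1000000 ≤ ∑ i ∈ II n K, q ^ (SS i).card :=
    Q_lower hK hn hq0 (real_q3 r4 r3 r1 r2) (fun v hv0 hv => real_base r4 r3 r1 r2 hv0 hv)
  have hmbig : 98 * (K : ℝ) ^ 2 ≤ m := by
    rw [r1, r3]
    nlinarith [sq_nonneg (K : ℝ)]
  have hlow : ∀ i ∈ II n K,
      q ^ (SS i).card / 2 * Fintype.card (Fin N ≃ Cl n) ≤ cnt N m (SS i) := by
    intro i hi
    rw [mem_II] at hi
    have hc := SS_card hi.2.2.2
    set J := (SS i).card with hJ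
    have hJ7 : (J : ℝ) ≤ 7 * K := by
      have : J ≤ 7 * K := by omega
      exact_mod_cast this
    have hJ0 : (0 : ℝ) ≤ J := Nat.cast_nonneg _
    have hK2 : (0 : ℝ) < (K : ℝ) ^ 2 := by positivity
    have hm0 : (0 : ℝ) < m := by nlinarith
    have hJm : (J : ℝ) ≤ m := by nlinarith
    have h1 := le_cnt hN r5 (J := J) (by exact_mod_cast hJm) (SS i) le_rfl
    rw [← hJ] at h1
    refine le_trans ?_ h1
    apply mul_le_mul_of_nonneg_right _ (Nat.cast_nonneg _)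
    have h2 : ((m : ℝ) - J) / N = q * (1 + (-(J / m))) := by
      rw [hq]
      field_simp
      ring
    rw [h2, mul_pow]
    have h3 : 1 + (J : ℝ) * (-(J / m)) ≤ (1 + (-((J : ℝ) / m))) ^ J := by
      apply one_add_mul_le_pow
      have : (J : ℝ) / m ≤ 1 := by rw [div_le_one hm0]; exact hJm
      linarith
    have h4 : (J : ℝ) * (J / m) ≤ 1 / 2 := by
      rw [mul_div_assoc', div_le_div_iff₀ hm0 (by norm_num)]
      nlinarith
    have h5 : 1 / 2 ≤ (1 + (-((J : ℝ) / m))) ^ J := by linarith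
    have h6 := mul_le_mul_of_nonneg_left h5 (pow_nonneg hq0 J)
    linarith
  have h1 := second_moment hN r5 (II n K) SS (C := 1200) (q := q) (by norm_num) rfl hlow
    (fun i hi => pair_sum hK hq0 hq1 hq2 i hi)
  refine le_trans ?_ h1
  apply mul_le_mul_of_nonneg_right _ (Nat.cast_nonneg _)
  rw [le_div_iff₀ (by norm_num)]
  linarith

/-- a formula containing a dumbbell is unsatisfiable -/
theorem unsat_of {K n m N : ℕ} {e : Fin N ≃ Cl n} {i : Ix n} (hi : i ∈ II n K)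
    (h : SS i ⊆ fst m e) (a : Fin n → Bool) :
    ¬ ∀ c : Cl n, (e.symm c : ℕ) < m → ∃ l ∈ c.val, a l.1 = l.2 := by
  intro h1
  rw [mem_II] at hi
  apply ds_unsat (P := ex (v := i.1.1 + i.1.2.1 + i.1.2.2 + 4) i.2) (a := i.1.1 + 1)
    (b := i.1.2.1 + 1) (c := i.1.2.2 + 1) (by omega) a
  intro C hC
  have h2 : IsCl C := sset_isCl hi.2.2.2 C hC
  have h3 : (⟨C, h2⟩ : Cl n) ∈ SS i := mem_toCl.2 hC
  exact h1 ⟨C, h2⟩ (mem_fst.1 (h h3))

end Pool.Agent.U147.Sat
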