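import Pool.Agent.U147.Sat.US
import Pool.Agent.U147.Sat.Unsat

/-!
# The random 2-SAT process: uniquely satisfiable subformulas need not appear before
unsatisfiability
-/

set_option autoImplicit false

open Finset

namespace Pool.Agent.U147.Sat

/-- the event of the problem -/
def Ev (n N : ℕ) (e : Fin N ≃ Cl n) : Prop :=
  ∃ m : ℕ,
    (∀ j : ℕ, j < m → ∃ a : Fin n → Bool,
        ∀ c : Cl n, ((e.symm c : Fin _) : ℕ) < j → ∃ l ∈ c.val, a l.1 = l.2) ∧
    ∃ H : Finset (Cl n),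
      H.Nonempty ∧
      (∀ c ∈ H, ((e.symm c : Fin _) : ℕ) < m) ∧
      ∃ a : Fin n → Bool,
        (∀ c ∈ H, ∃ l ∈ c.val, a l.1 = l.2) ∧
        ∀ b : Fin n → Bool, (∀ c ∈ H, ∃ l ∈ c.val, b l.1 = l.2) →
          ∀ i : Fin n, (∃ c ∈ H, ∃ l ∈ c.val, l.1 = i) → b i = a i

theorem real_us {k n m N q r : ℝ} (hk : 4 ≤ k) (hn : n = 1000 * k ^ 3) (hm : m = n - 20 * k ^ 2)
    (hN : N = 2 * n * (n - 1)) (hq : q = m / N) (hr : r = q * (2 * n)) (hm0 : 0 ≤ m) :
    r < 1 ∧ q * (1 / (1 - r) ^ 2) + q ^ 2 * (24 / (1 - r) ^ 5) ≤ 60005 / k := by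
  have h1 : 0 < k ^ 2 := by positivity
  have hk0 : 0 < k := by linarith
  have h3 : 1000 ≤ n := by
    rw [hn]
    nlinarith [pow_le_pow_left₀ (by norm_num : (0 : ℝ) ≤ 4) hk 3]
  have hn1 : 0 < n - 1 := by linarith
  have hn0 : 0 < n := by linarith
  have hr' : r = m / (n - 1) := by
    rw [hr, hq, hN]
    field_simp
  have h4 : 1 / (100 * k) ≤ 1 - r := by
    rw [hr', hm]
    have e1 : 1 - (n - 20 * k ^ 2) / (n - 1) = (20 * k ^ 2 - 1) / (n - 1) := by
      field_simp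
      ring
    rw [e1, div_le_div_iff₀ (by positivity) hn1, hn]
    have : (16 : ℝ) ≤ k ^ 2 := by nlinarith
    have h5 : k ≤ k ^ 3 := by nlinarith
    nlinarith
  have h5 : 0 < 1 / (100 * k) := by positivity
  have hr1 : 0 < 1 - r := lt_of_lt_of_le h5 h4
  have hq0 : 0 ≤ q := by
    rw [hq, hN]
    positivity
  have hq1 : q ≤ 1 / (2 * n) := by
    rw [le_div_iff₀ (by positivity)]
    have : q * (2 * n) = r := hr.symm
    rw [this]
    linarith
  have e2 : 1 / (1 - r) ≤ 100 * k := by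
    rw [div_le_iff₀ hr1]
    calc (1 : ℝ) = 100 * k * (1 / (100 * k)) := by field_simp
      _ ≤ 100 * k * (1 - r) := mul_le_mul_of_nonneg_left h4 (by positivity)
  have e3 : 0 ≤ 1 / (1 - r) := by positivity
  have e4 : 1 / (1 - r) ^ 2 ≤ (100 * k) ^ 2 := by
    rw [← one_div_pow]
    exact pow_le_pow_left₀ e3 e2 2
  have e5 : 24 / (1 - r) ^ 5 ≤ 24 * (100 * k) ^ 5 := by
    have : 24 / (1 - r) ^ 5 = 24 * (1 / (1 - r)) ^ 5 := by
      rw [one_div_pow]
      ring
    rw [this]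
    exact mul_le_mul_of_nonneg_left (pow_le_pow_left₀ e3 e2 5) (by norm_num)
  refine ⟨by linarith, ?_⟩
  calc q * (1 / (1 - r) ^ 2) + q ^ 2 * (24 / (1 - r) ^ 5)
      ≤ (1 / (2 * n)) * (100 * k) ^ 2 + (1 / (2 * n)) ^ 2 * (24 * (100 * k) ^ 5) := by
        apply add_le_add
        · exact mul_le_mul hq1 e4 (by positivity) (by positivity)
        · exact mul_le_mul (pow_le_pow_left₀ hq0 hq1 2) e5 (by positivity) (by positivity)
    _ = 60005 / k := by
        rw [hn]
        field_simp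
        ring

/-- the number of orderings in the event is at most `(1 - c)` times the total number -/
theorem ev_bound {K n N : ℕ} (hK : 4 ≤ K) (hn : n = 1000 * K ^ 3)
    (hN : Fintype.card (Cl n) = N) :
    (Nat.card {e : Fin N ≃ Cl n // Ev n N e} : ℝ) ≤
      (1 - 8 / 100000000 + 60005 / K) * Nat.card (Fin N ≃ Cl n) := by
  classical
  set m := n - 20 * K ^ 2 with hm
  have hN' : N = 2 * n * (n - 1) := by rw [← hN, card_Cl]
  obtain ⟨r1, r2, r3, r4, r5⟩ := real_q hK hn hm hN'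
  obtain ⟨s1, s2⟩ := real_us r4 r3 r1 r2 rfl rfl (Nat.cast_nonneg m)
  obtain ⟨B, hB, hBc⟩ := us_bound hN r5 (q := (m : ℝ) / N) (r := (m : ℝ) / N * (2 * n)) rfl rfl s1
  have hU := unsat_lower hK hn hm hN
  set U := (univ : Finset (Fin N ≃ Cl n)).filter fun e => ∃ i ∈ II n K, SS i ⊆ fst m e with hUd
  have hZ0 : (0 : ℝ) ≤ Fintype.card (Fin N ≃ Cl n) := Nat.cast_nonneg _
  rw [Nat.card_eq_fintype_card, Nat.card_eq_fintype_card, Fintype.card_subtype]
  have h1 : (univ.filter fun e : Fin N ≃ Cl n => Ev n N e) ⊆ (univ \ U) ∪ B := by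
    intro e he
    rw [mem_filter] at he
    rw [mem_union, mem_sdiff]
    by_cases heU : e ∈ U
    · right
      obtain ⟨m0, hsat, H, hne, hH, a, ha, huniq⟩ := he.2
      rw [hUd, mem_filter] at heU
      obtain ⟨_, i, hi, hS⟩ := heU
      have hm0 : m0 ≤ m := by
        by_contra hlt
        obtain ⟨a', ha'⟩ := hsat m (by omega)
        exact unsat_of hi hS a' ha'
      apply hB
      exact us_struct H hne (fun c hc => lt_of_lt_of_le (hH c hc) hm0) a ha huniq
    · left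
      exact ⟨mem_univ _, heU⟩
  have h2 : ((univ.filter fun e : Fin N ≃ Cl n => Ev n N e).card : ℝ) ≤
      (((univ \ U).card : ℕ) : ℝ) + B.card := by
    exact_mod_cast (card_le_card h1).trans (card_union_le _ _)
  have h3 : (((univ \ U).card : ℕ) : ℝ) = Fintype.card (Fin N ≃ Cl n) - U.card := by
    rw [card_univ_sdiff, Nat.cast_sub (card_le_univ _)]
  have h4 := mul_le_mul_of_nonneg_right s2 hZ0
  calc _ ≤ (((univ \ U).card : ℕ) : ℝ) + B.card := h2
    _ ≤ (Fintype.card (Fin N ≃ Cl n) - 8 / 100000000 * (Fintype.card (Fin N ≃ Cl n) : ℝ)) +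
        60005 / K * Fintype.card (Fin N ≃ Cl n) := by
        rw [h3]
        exact add_le_add (by linarith) (hBc.trans h4)
    _ = _ := by ring

end Pool.Agent.U147.Sat
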