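import Mathlib

/-!
# 2-clauses: basic facts
-/

set_option autoImplicit false

open Finset

namespace Pool.Agent.U147.Sat

/-- literals -/
abbrev Lit (n : ℕ) := Fin n × Bool

/-- 2-clauses -/
abbrev Cl (n : ℕ) := {c : Finset (Fin n × Bool) // c.card = 2 ∧ (c.image Prod.fst).card = 2}

variable {n : ℕ}

/-- the negated literal -/
def ng (u : Lit n) : Lit n := (u.1, !u.2)

@[simp] theorem ng_fst (u : Lit n) : (ng u).1 = u.1 := rfl

@[simp] theorem ng_snd (u : Lit n) : (ng u).2 = !u.2 := rfl

@[simp] theorem ng_ng (u : Lit n) : ng (ng u) = u := by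
  ext <;> simp

theorem ng_ne (u : Lit n) : ng u ≠ u := by
  intro h
  have := congrArg Prod.snd h
  simp at this

theorem ng_inj {u v : Lit n} (h : ng u = ng v) : u = v := by
  have := congrArg ng h
  simpa using this

theorem ng_comm {u v : Lit n} (h : ng u = v) : u = ng v := by rw [← h, ng_ng]

/-- the clause of the implication `u → v` -/
def cs (u v : Lit n) : Finset (Lit n) := {ng u, v}

theorem cs_eq_iff {u v u' v' : Lit n} :
    cs u v = cs u' v' ↔ (u = u' ∧ v = v') ∨ (u = ng v' ∧ v = ng u') := by
  unfold cs
  constructor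
  · intro h
    have h1 : ng u ∈ ({ng u', v'} : Finset (Lit n)) := by rw [← h]; simp
    have h2 : v ∈ ({ng u', v'} : Finset (Lit n)) := by rw [← h]; simp
    have h3 : ng u' ∈ ({ng u, v} : Finset (Lit n)) := by rw [h]; simp
    have h4 : v' ∈ ({ng u, v} : Finset (Lit n)) := by rw [h]; simp
    simp only [mem_insert, mem_singleton] at h1 h2 h3 h4
    rcases h1 with h1 | h1
    · have h5 := ng_inj h1
      subst h5
      rcases h4 with h4 | h4
      · rcases h2 with h2 | h2
        · left
          exact ⟨rfl, by rw [h2, h4]⟩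
        · left
          exact ⟨rfl, h2⟩
      · left
        exact ⟨rfl, h4.symm⟩
    · have h5 := ng_comm h1
      rcases h3 with h3 | h3
      · have h6 := ng_inj h3
        subst h6
        rcases h2 with h2 | h2
        · right
          exact ⟨h5, h2⟩
        · left
          exact ⟨rfl, h2⟩
      · right
        exact ⟨h5, h3.symm⟩
  · rintro (⟨rfl, rfl⟩ | ⟨rfl, rfl⟩)
    · rfl
    · simp [Finset.pair_comm]

theorem cs_ng (u v : Lit n) : cs (ng v) (ng u) = cs u v := by
  rw [cs_eq_iff]
  right
  simp

/-- being a clause -/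
def IsCl (c : Finset (Lit n)) : Prop := c.card = 2 ∧ (c.image Prod.fst).card = 2

instance : DecidablePred (IsCl (n := n)) := fun c => by unfold IsCl; infer_instance

theorem isCl_pair {u v : Lit n} (h : u.1 ≠ v.1) : IsCl ({u, v} : Finset (Lit n)) := by
  constructor
  · rw [card_pair]
    intro h1
    exact h (by rw [h1])
  · rw [image_insert, image_singleton, card_pair h]

theorem isCl_cs {u v : Lit n} (h : u.1 ≠ v.1) : IsCl (cs u v) := isCl_pair (by simpa using h)

/-- the corresponding set of clauses in the subtype -/
def toCl (S : Finset (Finset (Lit n))) : Finset (Cl n) :=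
  univ.filter fun c : Cl n => c.1 ∈ S

theorem mem_toCl {S : Finset (Finset (Lit n))} {c : Cl n} : c ∈ toCl S ↔ c.1 ∈ S := by
  simp [toCl]

theorem card_toCl {S : Finset (Finset (Lit n))} (h : ∀ c ∈ S, IsCl c) :
    (toCl S).card = S.card := by
  apply card_bij (fun c _ => c.1)
  · intro c hc
    exact mem_toCl.1 hc
  · intro c _ d _ h
    exact Subtype.ext h
  · intro c hc
    exact ⟨⟨c, h c hc⟩, mem_toCl.2 hc, rfl⟩

theorem toCl_sdiff (S S' : Finset (Finset (Lit n))) : toCl S \ toCl S' = toCl (S \ S') := by
  ext c
  simp [mem_toCl]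

/-- number of 2-clauses -/
theorem card_Cl (n : ℕ) : Fintype.card (Cl n) = 2 * n * (n - 1) := by
  have h1 : Fintype.card (Cl n) =
      ((univ : Finset (Finset (Lit n))).filter fun c => IsCl c).card := by
    rw [Fintype.card_subtype]
    rfl
  have h2 : ((powersetCard 2 (univ : Finset (Lit n))).card) = n * (2 * n - 1) := by
    rw [card_powersetCard, card_univ, Fintype.card_prod, Fintype.card_fin, Fintype.card_bool,
      Nat.choose_two_right]
    rcases n with _ | n
    · rfl
    · have : (n + 1) * 2 * ((n + 1) * 2 - 1) = (n + 1) * (2 * (n + 1) - 1) * 2 := by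
        rw [mul_comm (n + 1) 2]
        ring
      rw [this, Nat.mul_div_cancel _ (by norm_num)]
  let g : Fin n → Finset (Lit n) := fun i => {(i, true), (i, false)}
  have hg : Function.Injective g := by
    intro i j h
    have h3 : (i, true) ∈ g j := by rw [← h]; simp [g]
    simp only [g, mem_insert, mem_singleton, Prod.mk.injEq] at h3
    tauto
  have h3 : powersetCard 2 (univ : Finset (Lit n)) =
      ((univ : Finset (Finset (Lit n))).filter fun c => IsCl c) ∪ univ.image g := by
    ext c
    simp only [mem_powersetCard, subset_univ, true_and, mem_union, mem_filter, mem_univ,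
      mem_image, IsCl]
    constructor
    · intro h
      obtain ⟨u, v, huv, rfl⟩ := card_eq_two.1 h
      by_cases h4 : u.1 = v.1
      · right
        refine ⟨u.1, ?_⟩
        obtain ⟨i, b⟩ := u
        obtain ⟨j, b'⟩ := v
        simp only at h4
        subst h4
        cases b <;> cases b' <;> simp_all [g, Finset.pair_comm]
      · left
        exact isCl_pair h4
    · rintro (h | ⟨i, rfl⟩)
      · exact h.1
      · simp only [g]
        rw [card_pair]
        simp
  have h4 : Disjoint ((univ : Finset (Finset (Lit n))).filter fun c => IsCl c)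
      (univ.image g) := by
    rw [disjoint_left]
    intro c hc hc'
    simp only [mem_image, mem_univ, true_and] at hc'
    obtain ⟨i, rfl⟩ := hc'
    simp only [mem_filter, mem_univ, true_and, IsCl, g] at hc
    simp [image_insert] at hc
  have h5 := congrArg card h3
  rw [card_union_of_disjoint h4, card_image_of_injective _ hg, card_univ, Fintype.card_fin, h2,
    ← h1] at h5
  rcases n with _ | n
  · simp at h5
    omega
  · have h6 : 2 * (n + 1) - 1 = 2 * n + 1 := by omega
    have h7 : n + 1 - 1 = n := by omega
    rw [h6] at h5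
    rw [h7]
    nlinarith

/-- a literal is true -/
def tr (a : Fin n → Bool) (l : Lit n) : Prop := a l.1 = l.2

theorem tr_ng {a : Fin n → Bool} {l : Lit n} : tr a (ng l) ↔ ¬ tr a l := by
  unfold tr
  simp only [ng_fst, ng_snd]
  cases a l.1 <;> cases l.2 <;> simp

theorem sat_cs {a : Fin n → Bool} {u v : Lit n} (h : ∃ l ∈ cs u v, a l.1 = l.2) (hu : tr a u) :
    tr a v := by
  obtain ⟨l, hl, h1⟩ := h
  simp only [cs, mem_insert, mem_singleton] at hl
  rcases hl with rfl | rfl
  · exact absurd hu (tr_ng.1 h1)
  · exact h1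

end Pool.Agent.U147.Sat
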