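import Mathlib

/-!
# Transfer matrix sums

`A` is the (0-1) adjacency matrix of a digraph in which branching vertices are far apart.
We bound the weights of short walks for the matrix `A + q J`.
-/

set_option autoImplicit false

open Finset Matrix

namespace Pool.Agent.U147.Sat

variable {α : Type*} [Fintype α] [DecidableEq α]

/-- the hypotheses on the digraph -/
structure Hyp (nga : α → α) (A : Matrix α α ℝ) (rk : α → ℕ) (T D : Finset α)
    (X1 X2 K : ℕ) : Prop where
  inv : ∀ u, nga (nga u) = u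
  zo : ∀ u v, A u v = 0 ∨ A u v = 1
  sym : ∀ u v, A u v = A (nga v) (nga u)
  r1 : ∀ u v, A u v = 1 → 1 ≤ rk u → rk v + 1 = rk u
  r2 : ∀ u v, A u v = 1 → rk u = 0 → rk v = X1 ∨ rk v = X2
  x1 : 2 * K + 1 ≤ X1
  x2 : 2 * K + 1 ≤ X2
  u1 : ∀ u v v', 1 ≤ rk u → A u v = 1 → A u v' = 1 → v = v'
  u2 : ∀ u, ∑ v, A u v ≤ 2
  supp : ∀ u v, A u v = 1 → u ∈ T
  cT : T.card ≤ 14 * K
  dd : ∀ u v, A u v = 1 → rk u = 0 → u ∈ D
  cD : D.card ≤ 2

variable {nga : α → α} {A : Matrix α α ℝ} {rk : α → ℕ} {T D : Finset α} {X1 X2 K : ℕ}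

/-- number of walks of length `i` from `u` -/
def nw (A : Matrix α α ℝ) (i : ℕ) (u : α) : ℝ := ∑ v, (A ^ i) u v

theorem nw_zero (A : Matrix α α ℝ) (u : α) : nw A 0 u = 1 := by
  simp [nw, Matrix.one_apply]

theorem nw_succ (A : Matrix α α ℝ) (i : ℕ) (u : α) :
    nw A (i + 1) u = ∑ w, A u w * nw A i w := by
  unfold nw
  simp_rw [pow_succ', Matrix.mul_apply]
  rw [sum_comm]
  simp_rw [mul_sum]

theorem pow_entry_nonneg {B : Matrix α α ℝ} (hB : ∀ u v, 0 ≤ B u v) (i : ℕ) (u v : α) :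
    0 ≤ (B ^ i) u v := by
  induction i generalizing u v with
  | zero => rw [pow_zero, Matrix.one_apply]; split_ifs <;> norm_num
  | succ i ih =>
    rw [pow_succ', Matrix.mul_apply]
    exact sum_nonneg fun w _ => mul_nonneg (hB _ _) (ih _ _)

theorem pow_sym {B : Matrix α α ℝ} (hinv : ∀ u, nga (nga u) = u)
    (hB : ∀ u v, B u v = B (nga v) (nga u)) (i : ℕ) (u v : α) :
    (B ^ i) u v = (B ^ i) (nga v) (nga u) := by
  have hI : Function.Involutive nga := hinv
  induction i generalizing u v with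
  | zero =>
    rw [pow_zero, Matrix.one_apply, Matrix.one_apply]
    by_cases h : u = v
    · subst h; simp
    · rw [if_neg h, if_neg]
      intro h1
      exact h (hI.injective h1).symm
  | succ i ih =>
    have e1 : (B ^ (i + 1)) u v = ∑ w, B u w * (B ^ i) w v := by
      rw [pow_succ', Matrix.mul_apply]
    have e2 : (B ^ (i + 1)) (nga v) (nga u) = ∑ w, (B ^ i) (nga v) w * B w (nga u) := by
      rw [pow_succ, Matrix.mul_apply]
    rw [e1, e2, ← Equiv.sum_comp (hI.toPerm) (fun j => (B ^ i) (nga v) j * B j (nga u))]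
    refine sum_congr rfl fun w _ => ?_
    simp only [Function.Involutive.coe_toPerm]
    rw [← ih w v, ← hB u w, mul_comm]

namespace Hyp

variable (H : Hyp nga A rk T D X1 X2 K)

include H

theorem nonneg (u v : α) : 0 ≤ A u v := by
  rcases H.zo u v with h | h <;> rw [h] <;> norm_num

theorem nw_nonneg (i : ℕ) (u : α) : 0 ≤ nw A i u :=
  sum_nonneg fun v _ => pow_entry_nonneg H.nonneg i u v

theorem row1 (u : α) (h : 1 ≤ rk u) : ∑ v, A u v ≤ 1 := by
  by_cases h1 : ∃ v, A u v = 1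
  · obtain ⟨v, hv⟩ := h1
    rw [sum_eq_single v]
    · exact hv.le
    · intro w _ hw
      rcases H.zo u w with h2 | h2
      · exact h2
      · exact absurd (H.u1 u w v h h2 hv) hw
    · simp
  · have : ∀ v, A u v = 0 := by
      intro v
      rcases H.zo u v with h2 | h2
      · exact h2
      · exact absurd ⟨v, h2⟩ h1
    simp [this]

theorem nw_le_one (i : ℕ) (u : α) (h : i ≤ rk u) : nw A i u ≤ 1 := by
  induction i generalizing u with
  | zero => rw [nw_zero]
  | succ i ih =>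
    rw [nw_succ]
    refine le_trans (sum_le_sum fun w _ => ?_) (H.row1 u (by omega))
    rcases H.zo u w with h1 | h1
    · rw [h1]; simp
    · rw [h1, one_mul]
      apply ih
      have := H.r1 u w h1 (by omega)
      omega

theorem nw_le_two (i : ℕ) (hi : i ≤ 2 * K + 2) (u : α) : nw A i u ≤ 2 := by
  induction i generalizing u with
  | zero => rw [nw_zero]; norm_num
  | succ i ih =>
    rw [nw_succ]
    rcases Nat.eq_zero_or_pos (rk u) with h0 | h0
    · refine le_trans (sum_le_sum fun w _ => ?_) (H.u2 u)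
      rcases H.zo u w with h1 | h1
      · rw [h1]; simp
      · rw [h1, one_mul]
        apply H.nw_le_one
        have h2 := H.x1
        have h3 := H.x2
        rcases H.r2 u w h1 h0 with h4 | h4 <;> omega
    · calc ∑ w, A u w * nw A i w ≤ ∑ w, A u w * 2 :=
            sum_le_sum fun w _ => mul_le_mul_of_nonneg_left (ih (by omega) w) (H.nonneg _ _)
        _ = (∑ w, A u w) * 2 := by rw [sum_mul]
        _ ≤ 1 * 2 := by
            have := H.row1 u h0
            linarith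
        _ = 2 := by norm_num

theorem nw_out (i : ℕ) (u : α) (h : u ∉ T) : nw A (i + 1) u = 0 := by
  rw [nw_succ]
  apply sum_eq_zero
  intro w _
  rcases H.zo u w with h1 | h1
  · rw [h1, zero_mul]
  · exact absurd (H.supp u w h1) h

theorem pow_rank (l : ℕ) (hl : l ≤ 2 * K + 2) (u v : α) (h : (A ^ l) u v ≠ 0) :
    (l ≤ rk u ∧ rk v + l = rk u) ∨
      (rk u < l ∧ (rk v + l = rk u + 1 + X1 ∨ rk v + l = rk u + 1 + X2)) := by
  induction l generalizing u with
  | zero =>
    rw [pow_zero, Matrix.one_apply] at h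
    split_ifs at h with h1
    · subst h1
      left
      omega
    · exact absurd rfl h
  | succ l ih =>
    rw [pow_succ', Matrix.mul_apply] at h
    obtain ⟨w, _, hw⟩ := exists_ne_zero_of_sum_ne_zero h
    have h1 : A u w = 1 := by
      rcases H.zo u w with h2 | h2
      · rw [h2, zero_mul] at hw
        exact absurd rfl hw
      · exact h2
    have h2 := ih (by omega) w (right_ne_zero_of_mul hw)
    have hx1 := H.x1
    have hx2 := H.x2
    rcases Nat.eq_zero_or_pos (rk u) with h0 | h0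
    · rcases H.r2 u w h1 h0 with h3 | h3 <;> omega
    · have h3 := H.r1 u w h1 h0
      omega

theorem pow_le_nw (l : ℕ) (u v : α) : (A ^ l) u v ≤ nw A l u :=
  single_le_sum (f := fun v => (A ^ l) u v) (fun w _ => pow_entry_nonneg H.nonneg l u w)
    (mem_univ v)

end Hyp

/-- walks of length between `1` and `2K+1` -/
def ww (A : Matrix α α ℝ) (K : ℕ) (u v : α) : ℝ := ∑ l ∈ range (2 * K + 1), (A ^ (l + 1)) u v

/-- all walks of length at most `2K+1` -/
def ff (A : Matrix α α ℝ) (K : ℕ) (u : α) : ℝ := ∑ i ∈ range (2 * K + 2), nw A i u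

namespace Hyp

variable (H : Hyp nga A rk T D X1 X2 K)

include H

theorem ww_nonneg (u v : α) : 0 ≤ ww A K u v :=
  sum_nonneg fun l _ => pow_entry_nonneg H.nonneg _ u v

theorem ww_le (u v : α) : ww A K u v ≤ 6 := by
  unfold ww
  set R := (range (2 * K + 1)).filter fun l => (A ^ (l + 1)) u v ≠ 0 with hR
  have h1 : ∑ l ∈ range (2 * K + 1), (A ^ (l + 1)) u v = ∑ l ∈ R, (A ^ (l + 1)) u v := by
    rw [hR, sum_filter_ne_zero]
  have h2 : R ⊆ {rk u - rk v - 1, rk u + X1 - rk v, rk u + X2 - rk v} := by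
    intro l hl
    rw [hR, mem_filter, mem_range] at hl
    simp only [mem_insert, mem_singleton]
    rcases H.pow_rank (l + 1) (by omega) u v hl.2 with h3 | h3 <;> omega
  have h3 : R.card ≤ 3 := (card_le_card h2).trans card_le_three
  rw [h1]
  calc ∑ l ∈ R, (A ^ (l + 1)) u v ≤ ∑ l ∈ R, (2 : ℝ) := by
        refine sum_le_sum fun l hl => ?_
        rw [hR, mem_filter, mem_range] at hl
        exact (H.pow_le_nw _ u v).trans (H.nw_le_two _ (by omega) u)
    _ = R.card * 2 := by rw [sum_const, nsmul_eq_mul]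
    _ ≤ 3 * 2 := by
        have : (R.card : ℝ) ≤ 3 := by exact_mod_cast h3
        linarith
    _ = 6 := by norm_num

theorem ff_eq (u : α) : ff A K u = 1 + ∑ i ∈ range (2 * K + 1), nw A (i + 1) u := by
  unfold ff
  rw [sum_range_succ', nw_zero, add_comm]

theorem ff_out (u : α) (h : u ∉ T) : ff A K u = 1 := by
  rw [H.ff_eq]
  simp [H.nw_out _ u h]

theorem one_le_ff (u : α) : 1 ≤ ff A K u := by
  rw [H.ff_eq]
  have := sum_nonneg fun i (_ : i ∈ range (2 * K + 1)) => H.nw_nonneg (i + 1) u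
  linarith

theorem ff_le (hK : 1 ≤ K) (u : α) : ff A K u ≤ 7 * K := by
  rw [H.ff_eq]
  have h1 : ∑ i ∈ range (2 * K + 1), nw A (i + 1) u ≤ ∑ i ∈ range (2 * K + 1), (2 : ℝ) :=
    sum_le_sum fun i hi => H.nw_le_two _ (by rw [mem_range] at hi; omega) u
  rw [sum_const, card_range, nsmul_eq_mul] at h1
  push_cast at h1
  have h2 : (1 : ℝ) ≤ K := by exact_mod_cast hK
  linarith

theorem ww_row (hK : 1 ≤ K) (u : α) : ∑ v, ww A K u v ≤ 7 * K := by
  have h1 : ∑ v, ww A K u v = ∑ i ∈ range (2 * K + 1), nw A (i + 1) u := by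
    unfold ww nw
    rw [sum_comm]
  have h2 := H.ff_le hK u
  rw [H.ff_eq] at h2
  linarith

theorem ww_row_out (u : α) (h : u ∉ T) (v : α) : ww A K u v = 0 := by
  unfold ww
  apply sum_eq_zero
  intro l _
  have h1 := H.pow_le_nw (l + 1) u v
  rw [H.nw_out l u h] at h1
  exact le_antisymm h1 (pow_entry_nonneg H.nonneg _ u v)

theorem ww_sym (u v : α) : ww A K u v = ww A K (nga v) (nga u) := by
  unfold ww
  exact sum_congr rfl fun l _ => pow_sym H.inv H.sym _ u v

theorem sum_nga (f : α → ℝ) : ∑ u, f (nga u) = ∑ u, f u := by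
  have hI : Function.Involutive nga := H.inv
  exact Equiv.sum_comp hI.toPerm f

theorem ww_col (hK : 1 ≤ K) (v : α) : ∑ u, ww A K u v ≤ 7 * K := by
  have h1 : ∑ u, ww A K u v = ∑ u, ww A K (nga v) u := by
    rw [← H.sum_nga (fun u => ww A K (nga v) u)]
    exact sum_congr rfl fun u _ => H.ww_sym u v
  rw [h1]
  exact H.ww_row hK _

theorem ww_total (hK : 1 ≤ K) : ∑ u, ∑ v, ww A K u v ≤ 98 * K ^ 2 := by
  have h1 : ∑ u, ∑ v, ww A K u v = ∑ u ∈ T, ∑ v, ww A K u v := by
    symm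
    apply sum_subset (subset_univ _)
    intro u _ hu
    exact sum_eq_zero fun v _ => H.ww_row_out u hu v
  rw [h1]
  calc ∑ u ∈ T, ∑ v, ww A K u v ≤ ∑ u ∈ T, (7 * K : ℝ) := sum_le_sum fun u _ => H.ww_row hK u
    _ = T.card * (7 * K) := by rw [sum_const, nsmul_eq_mul]
    _ ≤ (14 * K) * (7 * K) := by
        have : (T.card : ℝ) ≤ 14 * K := by exact_mod_cast H.cT
        apply mul_le_mul_of_nonneg_right this (by positivity)
    _ = _ := by ring

end Hyp

/-- the weights -/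
def mq (A : Matrix α α ℝ) (q : ℝ) : Matrix α α ℝ := Matrix.of fun u v => A u v + q

theorem mq_apply (A : Matrix α α ℝ) (q : ℝ) (u v : α) : mq A q u v = A u v + q := rfl

/-- column sums -/
def cc (A : Matrix α α ℝ) (q : ℝ) (l : ℕ) (v : α) : ℝ := ∑ u, (mq A q ^ l) u v

/-- row sums -/
def rr (A : Matrix α α ℝ) (q : ℝ) (l : ℕ) (u : α) : ℝ := ∑ v, (mq A q ^ l) u v

/-- total sum -/
def ss (A : Matrix α α ℝ) (q : ℝ) (l : ℕ) : ℝ := q * ∑ u, rr A q l u

/-- total sum for `A` -/
def tt (A : Matrix α α ℝ) (q : ℝ) (l : ℕ) : ℝ := q * ∑ u, nw A l u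

theorem mq_expand (A : Matrix α α ℝ) (q : ℝ) (l : ℕ) (u v : α) :
    (mq A q ^ l) u v = (A ^ l) u v + q * ∑ i ∈ range l, nw A i u * cc A q (l - 1 - i) v := by
  induction l generalizing u with
  | zero => simp
  | succ l ih =>
    rw [pow_succ', Matrix.mul_apply]
    simp_rw [mq_apply, add_mul]
    rw [sum_add_distrib, ← mul_sum]
    have h1 : ∑ w, A u w * (mq A q ^ l) w v = (A ^ (l + 1)) u v +
        q * ∑ i ∈ range l, nw A (i + 1) u * cc A q (l - 1 - i) v := by
      simp_rw [ih, mul_add]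
      rw [sum_add_distrib, pow_succ', Matrix.mul_apply]
      congr 1
      simp_rw [nw_succ, mul_sum, sum_mul, mul_sum]
      rw [sum_comm]
      refine sum_congr rfl fun i _ => sum_congr rfl fun w _ => ?_
      ring
    rw [h1, sum_range_succ', nw_zero]
    have h2 : ∑ w, (mq A q ^ l) w v = cc A q l v := rfl
    rw [h2]
    have h3 : ∑ i ∈ range l, nw A (i + 1) u * cc A q (l + 1 - 1 - (i + 1)) v =
        ∑ i ∈ range l, nw A (i + 1) u * cc A q (l - 1 - i) v := by
      refine sum_congr rfl fun i _ => ?_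
      have : l + 1 - 1 - (i + 1) = l - 1 - i := by omega
      rw [this]
    rw [h3]
    simp only [Nat.add_sub_cancel, Nat.sub_zero, one_mul]
    ring

theorem sum_cc (A : Matrix α α ℝ) (q : ℝ) (l : ℕ) : q * ∑ v, cc A q l v = ss A q l := by
  unfold ss cc rr
  rw [sum_comm]

theorem rr_expand (A : Matrix α α ℝ) (q : ℝ) (l : ℕ) (u : α) :
    rr A q l u = nw A l u + ∑ i ∈ range l, nw A i u * ss A q (l - 1 - i) := by
  unfold rr
  simp_rw [mq_expand A q l u]
  rw [sum_add_distrib]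
  congr 1
  rw [← mul_sum, sum_comm, mul_sum]
  refine sum_congr rfl fun i _ => ?_
  rw [← mul_sum, ← sum_cc]
  ring

theorem ss_expand (A : Matrix α α ℝ) (q : ℝ) (l : ℕ) :
    ss A q l = tt A q l + ∑ i ∈ range l, tt A q i * ss A q (l - 1 - i) := by
  have h1 : ss A q l = q * ∑ u, rr A q l u := rfl
  rw [h1]
  simp_rw [rr_expand A q l]
  rw [sum_add_distrib, mul_add]
  congr 1
  rw [sum_comm, mul_sum]
  refine sum_congr rfl fun i _ => ?_
  rw [← sum_mul, tt]
  ring

namespace Hyp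

variable (H : Hyp nga A rk T D X1 X2 K) {q : ℝ}

include H

theorem mq_sym (u v : α) : mq A q u v = mq A q (nga v) (nga u) := by
  rw [mq_apply, mq_apply, H.sym u v]

theorem cc_eq (l : ℕ) (v : α) : cc A q l v = rr A q l (nga v) := by
  unfold cc rr
  rw [← H.sum_nga (fun u => (mq A q ^ l) (nga v) u)]
  exact sum_congr rfl fun u _ => pow_sym H.inv H.mq_sym _ u v

theorem mq_nonneg (hq : 0 ≤ q) (u v : α) : 0 ≤ mq A q u v := by
  rw [mq_apply]
  exact add_nonneg (H.nonneg _ _) hq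

theorem rr_nonneg (hq : 0 ≤ q) (l : ℕ) (u : α) : 0 ≤ rr A q l u :=
  sum_nonneg fun v _ => pow_entry_nonneg (H.mq_nonneg hq) l u v

theorem ss_nonneg (hq : 0 ≤ q) (l : ℕ) : 0 ≤ ss A q l :=
  mul_nonneg hq (sum_nonneg fun u _ => H.rr_nonneg hq l u)

theorem tt_nonneg (hq : 0 ≤ q) (l : ℕ) : 0 ≤ tt A q l :=
  mul_nonneg hq (sum_nonneg fun u _ => H.nw_nonneg l u)

theorem tt_le (hq : 0 ≤ q) (i : ℕ) (hi : i + 1 ≤ 2 * K + 2) :
    tt A q (i + 1) ≤ 28 * K * q := by
  unfold tt
  have h1 : ∑ u, nw A (i + 1) u = ∑ u ∈ T, nw A (i + 1) u := by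
    symm
    apply sum_subset (subset_univ _)
    intro u _ hu
    exact H.nw_out i u hu
  have h2 : ∑ u ∈ T, nw A (i + 1) u ≤ T.card * 2 := by
    calc ∑ u ∈ T, nw A (i + 1) u ≤ ∑ u ∈ T, (2 : ℝ) := sum_le_sum fun u _ => H.nw_le_two _ hi u
      _ = _ := by rw [sum_const, nsmul_eq_mul]
  have h3 : (T.card : ℝ) ≤ 14 * K := by exact_mod_cast H.cT
  rw [h1]
  calc q * ∑ u ∈ T, nw A (i + 1) u ≤ q * (14 * K * 2) := by
        apply mul_le_mul_of_nonneg_left _ hq
        linarith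
    _ = _ := by ring

theorem ss_le (hq : 0 ≤ q) (hq1 : q * Fintype.card α ≤ 1) (hK : 1 ≤ K)
    (hq2 : q * (2000 * (K : ℝ) ^ 3) ≤ 1) (l : ℕ) (hl : l ≤ 2 * K + 1) :
    ss A q l ≤ 1 + 28 * K * q * l ^ 2 ∧ ss A q l ≤ 2 := by
  have hK1 : (1 : ℝ) ≤ K := by exact_mod_cast hK
  have hτ : 0 ≤ 28 * K * q := by positivity
  have key : ∀ l : ℕ, l ≤ 2 * K + 1 → 1 + 28 * K * q * (l : ℝ) ^ 2 ≤ 2 := by
    intro l hl
    have h1 : (l : ℝ) ≤ 3 * K := by
      have : (l : ℝ) ≤ 2 * K + 1 := by exact_mod_cast hl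
      linarith
    have h2 : (l : ℝ) ^ 2 ≤ (3 * K) ^ 2 := pow_le_pow_left₀ (Nat.cast_nonneg _) h1 2
    have h3 : 28 * K * q * (l : ℝ) ^ 2 ≤ 28 * K * q * (3 * K) ^ 2 :=
      mul_le_mul_of_nonneg_left h2 hτ
    have h4 : 28 * K * q * (3 * K : ℝ) ^ 2 = 252 / 2000 * (q * (2000 * (K : ℝ) ^ 3)) := by ring
    rw [h4] at h3
    linarith
  induction l using Nat.strong_induction_on with
  | _ l ih =>
    have hmain : ss A q l ≤ 1 + 28 * K * q * l ^ 2 := by
      rcases l with _ | l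
      · rw [ss_expand]
        simp only [range_zero, sum_empty, add_zero]
        unfold tt
        simp only [nw_zero, sum_const, nsmul_eq_mul, mul_one, card_univ]
        have : (0 : ℝ) ≤ 28 * K * q * ((0 : ℕ) : ℝ) ^ 2 := by positivity
        linarith
      · rw [ss_expand, sum_range_succ']
        have h1 := H.tt_le hq l (by omega)
        have h2 : tt A q 0 * ss A q (l + 1 - 1 - 0) ≤ 1 + 28 * K * q * l ^ 2 := by
          have h3 : tt A q 0 ≤ 1 := by
            unfold tt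
            simp only [nw_zero, sum_const, nsmul_eq_mul, mul_one, card_univ]
            exact hq1
          have h4 := (ih l (by omega) (by omega)).1
          have h5 : l + 1 - 1 - 0 = l := by omega
          rw [h5]
          calc tt A q 0 * ss A q l ≤ 1 * ss A q l :=
                mul_le_mul_of_nonneg_right h3 (H.ss_nonneg hq l)
            _ ≤ _ := by rw [one_mul]; exact h4
        have h3 : ∑ i ∈ range l, tt A q (i + 1) * ss A q (l + 1 - 1 - (i + 1)) ≤
            l * (28 * K * q * 2) := by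
          calc ∑ i ∈ range l, tt A q (i + 1) * ss A q (l + 1 - 1 - (i + 1))
              ≤ ∑ i ∈ range l, 28 * K * q * 2 := by
                refine sum_le_sum fun i hi => ?_
                rw [mem_range] at hi
                exact mul_le_mul (H.tt_le hq i (by omega)) (ih _ (by omega) (by omega)).2
                  (H.ss_nonneg hq _) hτ
            _ = _ := by rw [sum_const, card_range, nsmul_eq_mul]
        have e : ((l + 1 : ℕ) : ℝ) = l + 1 := by push_cast; rfl
        rw [e]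
        nlinarith
    exact ⟨hmain, hmain.trans (key l hl)⟩

theorem rr_le (hq : 0 ≤ q) (hq1 : q * Fintype.card α ≤ 1) (hK : 1 ≤ K)
    (hq2 : q * (2000 * (K : ℝ) ^ 3) ≤ 1) (l : ℕ) (hl : l ≤ 2 * K + 1) (u : α) :
    rr A q l u ≤ 2 * ff A K u := by
  rw [rr_expand]
  have h1 : ∑ i ∈ range l, nw A i u * ss A q (l - 1 - i) ≤ ∑ i ∈ range l, nw A i u * 2 := by
    refine sum_le_sum fun i hi => ?_
    rw [mem_range] at hi
    exact mul_le_mul_of_nonneg_left (H.ss_le hq hq1 hK hq2 _ (by omega)).2 (H.nw_nonneg _ _)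
  have h2 : nw A l u ≤ nw A l u * 2 := by
    have := H.nw_nonneg l u
    linarith
  have h3 : ∑ i ∈ range (l + 1), nw A i u ≤ ff A K u :=
    sum_le_sum_of_subset_of_nonneg (range_subset_range.2 (by omega))
      fun i _ _ => H.nw_nonneg i u
  rw [sum_range_succ] at h3
  rw [← sum_mul] at h1
  linarith

theorem mq_pow_le (hq : 0 ≤ q) (hq1 : q * Fintype.card α ≤ 1) (hK : 1 ≤ K)
    (hq2 : q * (2000 * (K : ℝ) ^ 3) ≤ 1) (l : ℕ) (hl : l ≤ 2 * K + 1) (u v : α) :
    (mq A q ^ l) u v ≤ (A ^ l) u v + 2 * q * ff A K u * ff A K (nga v) := by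
  rw [mq_expand]
  have h1 : ∑ i ∈ range l, nw A i u * cc A q (l - 1 - i) v ≤
      ∑ i ∈ range l, nw A i u * (2 * ff A K (nga v)) := by
    refine sum_le_sum fun i hi => ?_
    rw [mem_range] at hi
    rw [H.cc_eq]
    exact mul_le_mul_of_nonneg_left (H.rr_le hq hq1 hK hq2 _ (by omega) _) (H.nw_nonneg _ _)
  have h2 : ∑ i ∈ range l, nw A i u ≤ ff A K u :=
    sum_le_sum_of_subset_of_nonneg (range_subset_range.2 (by omega))
      fun i _ _ => H.nw_nonneg i u
  have h3 : 0 ≤ ff A K (nga v) := zero_le_one.trans (H.one_le_ff _)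
  rw [← sum_mul] at h1
  have h4 : (∑ i ∈ range l, nw A i u) * (2 * ff A K (nga v)) ≤
      ff A K u * (2 * ff A K (nga v)) := mul_le_mul_of_nonneg_right h2 (by positivity)
  have h5 := mul_le_mul_of_nonneg_left (h1.trans h4) hq
  linarith

end Hyp

/-- weight of closed-up walks with `a+1` interior vertices, first interior vertex different from
the negation of the last -/
def rc (nga : α → α) (B : Matrix α α ℝ) (a : ℕ) (u : α) : ℝ :=
  ∑ s, ∑ t, if s = nga t then 0 else B u s * (B ^ a) s t * B t (nga u)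

namespace Hyp

variable (H : Hyp nga A rk T D X1 X2 K) {q : ℝ}

include H

theorem rc_nonneg (hq : 0 ≤ q) (a : ℕ) (u : α) : 0 ≤ rc nga (mq A q) a u := by
  unfold rc
  refine sum_nonneg fun s _ => sum_nonneg fun t _ => ?_
  split_ifs
  · exact le_rfl
  · exact mul_nonneg (mul_nonneg (H.mq_nonneg hq _ _) (pow_entry_nonneg (H.mq_nonneg hq) _ _ _))
      (H.mq_nonneg hq _ _)

theorem rc_le_pow (hq : 0 ≤ q) (a : ℕ) (u : α) :
    rc nga (mq A q) a u ≤ (mq A q ^ (a + 2)) u (nga u) := by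
  have h1 : (mq A q ^ (a + 2)) u (nga u) =
      ∑ s, ∑ t, mq A q u s * (mq A q ^ a) s t * mq A q t (nga u) := by
    rw [pow_succ, Matrix.mul_apply]
    simp_rw [pow_succ', Matrix.mul_apply, sum_mul]
    rw [sum_comm]
  rw [h1]
  unfold rc
  refine sum_le_sum fun s _ => sum_le_sum fun t _ => ?_
  split_ifs
  · exact mul_nonneg (mul_nonneg (H.mq_nonneg hq _ _) (pow_entry_nonneg (H.mq_nonneg hq) _ _ _))
      (H.mq_nonneg hq _ _)
  · exact le_rfl

theorem rc_le_row (hq : 0 ≤ q) (a : ℕ) (u : α)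
    (huniq : ∀ s s', A u s = 1 → A u s' = 1 → s = s') :
    rc nga (mq A q) a u ≤ 2 * q * rr A q (a + 1) u := by
  have h1 : rr A q (a + 1) u = ∑ s, ∑ t, mq A q u s * (mq A q ^ a) s t := by
    unfold rr
    simp_rw [pow_succ', Matrix.mul_apply]
    rw [sum_comm]
  have h2 : rr A q (a + 1) u = ∑ s, ∑ t, (mq A q ^ a) s t * mq A q t (nga u) := by
    have h3 := H.cc_eq (q := q) (a + 1) (nga u)
    rw [H.inv] at h3
    rw [← h3]
    unfold cc
    simp_rw [pow_succ, Matrix.mul_apply]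
  have h3 : 2 * q * rr A q (a + 1) u = ∑ s, ∑ t, (q * (mq A q u s * (mq A q ^ a) s t) +
      q * ((mq A q ^ a) s t * mq A q t (nga u))) := by
    calc 2 * q * rr A q (a + 1) u = q * rr A q (a + 1) u + q * rr A q (a + 1) u := by ring
      _ = q * (∑ s, ∑ t, mq A q u s * (mq A q ^ a) s t) +
          q * (∑ s, ∑ t, (mq A q ^ a) s t * mq A q t (nga u)) := by rw [← h1, ← h2]
      _ = _ := by simp_rw [mul_sum, ← sum_add_distrib]
  rw [h3]
  unfold rc
  refine sum_le_sum fun s _ => sum_le_sum fun t _ => ?_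
  have hp := pow_entry_nonneg (H.mq_nonneg hq) a s t
  have hm1 := H.mq_nonneg hq u s
  have hm2 := H.mq_nonneg hq t (nga u)
  split_ifs with h
  · positivity
  · have h4 : A u s * A t (nga u) = 0 := by
      have h5 := H.sym t (nga u)
      rw [H.inv] at h5
      rcases H.zo u s with h6 | h6
      · rw [h6, zero_mul]
      · rcases H.zo t (nga u) with h7 | h7
        · rw [h7, mul_zero]
        · exact absurd (huniq s (nga t) h6 (by rw [← h5, h7])) h
    have h5 : mq A q u s * mq A q t (nga u) ≤ q * mq A q u s + q * mq A q t (nga u) := by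
      rw [mq_apply, mq_apply]
      nlinarith [mul_nonneg hq hq]
    calc mq A q u s * (mq A q ^ a) s t * mq A q t (nga u)
        = (mq A q u s * mq A q t (nga u)) * (mq A q ^ a) s t := by ring
      _ ≤ (q * mq A q u s + q * mq A q t (nga u)) * (mq A q ^ a) s t :=
          mul_le_mul_of_nonneg_right h5 hp
      _ = _ := by ring

/-- the sum of the cycle weights -/
theorem sum_rc_le (hq : 0 ≤ q) (hq1 : q * Fintype.card α ≤ 1) (hK : 1 ≤ K)
    (hq2 : q * (2000 * (K : ℝ) ^ 3) ≤ 1) (u : α) :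
    ∑ a ∈ Ico K (2 * K), rc nga (mq A q) a u ≤
      4 * K * q * ff A K u + 7 * (if u ∈ D then 1 else 0) := by
  have hK1 : (1 : ℝ) ≤ K := by exact_mod_cast hK
  have hF0 : 0 ≤ ff A K u := zero_le_one.trans (H.one_le_ff u)
  have hF := H.ff_le hK u
  by_cases hu : u ∈ D
  · rw [if_pos hu]
    have h1 : ∀ a ∈ Ico K (2 * K), rc nga (mq A q) a u ≤
        (A ^ (a + 2)) u (nga u) + 2 * q * ff A K u * ff A K u := by
      intro a ha
      rw [mem_Ico] at ha
      have h2 := H.mq_pow_le hq hq1 hK hq2 (a + 2) (by omega) u (nga u)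
      rw [H.inv] at h2
      exact (H.rc_le_pow hq a u).trans h2
    have h2 : ∑ a ∈ Ico K (2 * K), (A ^ (a + 2)) u (nga u) ≤ ww A K u (nga u) := by
      unfold ww
      have h3 : ∑ a ∈ Ico K (2 * K), (A ^ (a + 2)) u (nga u) =
          ∑ l ∈ Ico (K + 1) (2 * K + 1), (A ^ (l + 1)) u (nga u) := by
        exact sum_Ico_add' (fun l => (A ^ (l + 1)) u (nga u)) K (2 * K) 1
      rw [h3, range_eq_Ico]
      exact sum_le_sum_of_subset_of_nonneg (Ico_subset_Ico (by omega) le_rfl)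
        fun l _ _ => pow_entry_nonneg H.nonneg _ _ _
    calc ∑ a ∈ Ico K (2 * K), rc nga (mq A q) a u
        ≤ ∑ a ∈ Ico K (2 * K), ((A ^ (a + 2)) u (nga u) + 2 * q * ff A K u * ff A K u) :=
          sum_le_sum h1
      _ = ∑ a ∈ Ico K (2 * K), (A ^ (a + 2)) u (nga u) + K * (2 * q * ff A K u * ff A K u) := by
          rw [sum_add_distrib, sum_const, Nat.card_Ico, nsmul_eq_mul]
          have : 2 * K - K = K := by omega
          rw [this]
      _ ≤ 6 + K * (2 * q * (7 * K) * (7 * K)) := by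
          apply add_le_add (h2.trans (H.ww_le _ _))
          apply mul_le_mul_of_nonneg_left _ (by positivity)
          have h5 : ff A K u * ff A K u ≤ (7 * K) * (7 * K) := mul_self_le_mul_self hF0 hF
          have h6 := mul_le_mul_of_nonneg_left h5 (show (0 : ℝ) ≤ 2 * q by positivity)
          linarith
      _ = 6 + 98 / 2000 * (q * (2000 * (K : ℝ) ^ 3)) := by ring
      _ ≤ 7 := by linarith
      _ ≤ _ := by
          have : 0 ≤ 4 * K * q * ff A K u := by positivity
          linarith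
  · rw [if_neg hu, mul_zero, add_zero]
    have huniq : ∀ s s', A u s = 1 → A u s' = 1 → s = s' := by
      intro s s' h1 h2
      rcases Nat.eq_zero_or_pos (rk u) with h0 | h0
      · exact absurd (H.dd u s h1 h0) hu
      · exact H.u1 u s s' h0 h1 h2
    calc ∑ a ∈ Ico K (2 * K), rc nga (mq A q) a u
        ≤ ∑ a ∈ Ico K (2 * K), 2 * q * (2 * ff A K u) := by
          refine sum_le_sum fun a ha => (H.rc_le_row hq a u huniq).trans ?_
          rw [mem_Ico] at ha
          exact mul_le_mul_of_nonneg_left (H.rr_le hq hq1 hK hq2 _ (by omega) u) (by positivity)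
      _ = _ := by
          rw [sum_const, Nat.card_Ico, nsmul_eq_mul]
          have : 2 * K - K = K := by omega
          rw [this]
          ring

/-- the sum of the path weights -/
theorem sum_path_le (hq : 0 ≤ q) (hq1 : q * Fintype.card α ≤ 1) (hK : 1 ≤ K)
    (hq2 : q * (2000 * (K : ℝ) ^ 3) ≤ 1) (u v : α) :
    ∑ a ∈ Ico K (2 * K), (mq A q ^ (a + 2)) u v ≤
      ww A K u v + 2 * K * q * ff A K u * ff A K (nga v) := by
  have h2 : ∑ a ∈ Ico K (2 * K), (A ^ (a + 2)) u v ≤ ww A K u v := by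
    unfold ww
    have h3 : ∑ a ∈ Ico K (2 * K), (A ^ (a + 2)) u v =
        ∑ l ∈ Ico (K + 1) (2 * K + 1), (A ^ (l + 1)) u v := by
      exact sum_Ico_add' (fun l => (A ^ (l + 1)) u v) K (2 * K) 1
    rw [h3, range_eq_Ico]
    exact sum_le_sum_of_subset_of_nonneg (Ico_subset_Ico (by omega) le_rfl)
      fun l _ _ => pow_entry_nonneg H.nonneg _ _ _
  calc ∑ a ∈ Ico K (2 * K), (mq A q ^ (a + 2)) u v
      ≤ ∑ a ∈ Ico K (2 * K), ((A ^ (a + 2)) u v + 2 * q * ff A K u * ff A K (nga v)) := by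
        refine sum_le_sum fun a ha => ?_
        rw [mem_Ico] at ha
        exact H.mq_pow_le hq hq1 hK hq2 _ (by omega) u v
    _ = ∑ a ∈ Ico K (2 * K), (A ^ (a + 2)) u v + K * (2 * q * ff A K u * ff A K (nga v)) := by
        rw [sum_add_distrib, sum_const, Nat.card_Ico, nsmul_eq_mul]
        have : 2 * K - K = K := by omega
        rw [this]
    _ ≤ _ := by linarith

theorem sum_ff_sq (hK : 1 ≤ K) : ∑ u, ff A K u ^ 2 ≤ Fintype.card α + 686 * K ^ 3 := by
  have h1 : ∀ u, ff A K u ^ 2 ≤ 1 + 49 * K ^ 2 * (if u ∈ T then 1 else 0) := by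
    intro u
    by_cases hu : u ∈ T
    · rw [if_pos hu]
      have h2 := H.ff_le hK u
      have h3 : ff A K u ^ 2 ≤ (7 * K) ^ 2 :=
        pow_le_pow_left₀ (zero_le_one.trans (H.one_le_ff u)) h2 2
      nlinarith
    · rw [if_neg hu, H.ff_out u hu]
      norm_num
  calc ∑ u, ff A K u ^ 2 ≤ ∑ u : α, (1 + 49 * (K : ℝ) ^ 2 * (if u ∈ T then 1 else 0)) :=
        sum_le_sum fun u _ => h1 u
    _ = Fintype.card α + 49 * K ^ 2 * T.card := by
        rw [sum_add_distrib, ← mul_sum]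
        simp
    _ ≤ Fintype.card α + 49 * K ^ 2 * (14 * K) := by
        have : (T.card : ℝ) ≤ 14 * K := by exact_mod_cast H.cT
        have h3 := mul_le_mul_of_nonneg_left this (show (0 : ℝ) ≤ 49 * K ^ 2 by positivity)
        linarith
    _ = _ := by ring

theorem sum_D : ∑ u : α, (if u ∈ D then (1 : ℝ) else 0) ≤ 2 := by
  have h1 : ∑ u : α, (if u ∈ D then (1 : ℝ) else 0) = D.card := by simp
  rw [h1]
  exact_mod_cast H.cD

theorem sum_phi_ff (hq : 0 ≤ q) (hq1 : q * Fintype.card α ≤ 1) (hK : 1 ≤ K)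
    (hq2 : q * (2000 * (K : ℝ) ^ 3) ≤ 1) :
    ∑ u, (4 * K * q * ff A K u + 7 * (if u ∈ D then 1 else 0)) * ff A K (nga u) ≤ 104 * K := by
  have hK1 : (1 : ℝ) ≤ K := by exact_mod_cast hK
  have h1 : ∀ u, (4 * K * q * ff A K u + 7 * (if u ∈ D then 1 else 0)) * ff A K (nga u) ≤
      2 * K * q * (ff A K u ^ 2 + ff A K (nga u) ^ 2) + 49 * K * (if u ∈ D then 1 else 0) := by
    intro u
    have h2 : 4 * K * q * ff A K u * ff A K (nga u) ≤
        2 * K * q * (ff A K u ^ 2 + ff A K (nga u) ^ 2) := by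
      have h3 : 2 * (ff A K u * ff A K (nga u)) ≤ ff A K u ^ 2 + ff A K (nga u) ^ 2 := by
        nlinarith [sq_nonneg (ff A K u - ff A K (nga u))]
      have h4 := mul_le_mul_of_nonneg_left h3 (show (0 : ℝ) ≤ 2 * K * q by positivity)
      linarith
    have h3 : 7 * (if u ∈ D then (1 : ℝ) else 0) * ff A K (nga u) ≤
        49 * K * (if u ∈ D then 1 else 0) := by
      have h4 := H.ff_le hK (nga u)
      split_ifs
      · linarith
      · simp
    linarith
  have h2 : ∑ u, ff A K (nga u) ^ 2 = ∑ u, ff A K u ^ 2 := H.sum_nga (fun u => ff A K u ^ 2)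
  have h3 := H.sum_ff_sq hK
  have h4 := H.sum_D
  calc ∑ u, (4 * K * q * ff A K u + 7 * (if u ∈ D then 1 else 0)) * ff A K (nga u)
      ≤ ∑ u, (2 * K * q * (ff A K u ^ 2 + ff A K (nga u) ^ 2) +
          49 * K * (if u ∈ D then 1 else 0)) := sum_le_sum fun u _ => h1 u
    _ = 2 * K * q * (∑ u, ff A K u ^ 2 + ∑ u, ff A K (nga u) ^ 2) +
          49 * K * ∑ u : α, (if u ∈ D then (1 : ℝ) else 0) := by
        rw [sum_add_distrib, ← mul_sum, ← mul_sum, sum_add_distrib]
    _ ≤ 2 * K * q * (2 * (Fintype.card α + 686 * K ^ 3)) + 49 * K * 2 := by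
        rw [h2]
        have h5 := mul_le_mul_of_nonneg_left h3 (show (0 : ℝ) ≤ 2 * K * q by positivity)
        have h6 := mul_le_mul_of_nonneg_left h4 (show (0 : ℝ) ≤ 49 * K by positivity)
        linarith
    _ = 4 * K * (q * Fintype.card α) + 4 * K * (686 / 2000) * (q * (2000 * (K : ℝ) ^ 3)) +
          98 * K := by ring
    _ ≤ 4 * K * 1 + 4 * K * (686 / 2000) * 1 + 98 * K := by
        have h5 := mul_le_mul_of_nonneg_left hq1 (show (0 : ℝ) ≤ 4 * K by positivity)
        have h6 := mul_le_mul_of_nonneg_left hq2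
          (show (0 : ℝ) ≤ 4 * K * (686 / 2000) by positivity)
        linarith
    _ ≤ 104 * K := by linarith

theorem sum_phi_ww (hq : 0 ≤ q) (hK : 1 ≤ K)
    (hq2 : q * (2000 * (K : ℝ) ^ 3) ≤ 1) :
    ∑ u, ∑ v, (4 * K * q * ff A K u + 7 * (if u ∈ D then 1 else 0)) * ww A K (nga u) v *
      (4 * K * q * ff A K v + 7 * (if v ∈ D then 1 else 0)) ≤ 1180 := by
  have hK1 : (1 : ℝ) ≤ K := by exact_mod_cast hK
  set ε : ℝ := 28 * K ^ 2 * q with hε
  have hε0 : 0 ≤ ε := by positivity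
  have hεK : ε * K ≤ 14 / 1000 := by
    have : ε * K = 28 / 2000 * (q * (2000 * (K : ℝ) ^ 3)) := by rw [hε]; ring
    rw [this]
    linarith
  have h1 : ∀ u, 4 * K * q * ff A K u ≤ ε := by
    intro u
    have h2 := mul_le_mul_of_nonneg_left (H.ff_le hK u) (show (0 : ℝ) ≤ 4 * K * q by positivity)
    rw [hε]
    linarith
  have hd : ∀ u : α, (0 : ℝ) ≤ if u ∈ D then 1 else 0 := by
    intro u
    split_ifs <;> norm_num
  have h0 : ∀ u, 0 ≤ 4 * K * q * ff A K u := by
    intro u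
    have := zero_le_one.trans (H.one_le_ff u)
    positivity
  have h2 : ∀ u v, (4 * K * q * ff A K u + 7 * (if u ∈ D then 1 else 0)) * ww A K (nga u) v *
      (4 * K * q * ff A K v + 7 * (if v ∈ D then 1 else 0)) ≤
      ε ^ 2 * ww A K (nga u) v + 7 * ε * ((if u ∈ D then 1 else 0) * ww A K (nga u) v) +
      7 * ε * (ww A K (nga u) v * (if v ∈ D then 1 else 0)) +
      294 * ((if u ∈ D then 1 else 0) * (if v ∈ D then 1 else 0)) := by
    intro u v
    have hw := H.ww_nonneg (nga u) v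
    have hw6 := H.ww_le (nga u) v
    have h3 : (4 * K * q * ff A K u + 7 * (if u ∈ D then (1 : ℝ) else 0)) *
        (4 * K * q * ff A K v + 7 * (if v ∈ D then (1 : ℝ) else 0)) ≤
        (ε + 7 * (if u ∈ D then 1 else 0)) * (ε + 7 * (if v ∈ D then 1 else 0)) := by
      apply mul_le_mul
      · linarith [h1 u]
      · linarith [h1 v]
      · linarith [h0 v, hd v]
      · linarith [hd u]
    have h4 := mul_le_mul_of_nonneg_right h3 hw
    have h5 : (if u ∈ D then (1 : ℝ) else 0) * (if v ∈ D then (1 : ℝ) else 0) * ww A K (nga u) v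
        ≤ (if u ∈ D then (1 : ℝ) else 0) * (if v ∈ D then (1 : ℝ) else 0) * 6 :=
      mul_le_mul_of_nonneg_left hw6 (mul_nonneg (hd u) (hd v))
    nlinarith
  have hD := H.sum_D
  have hD0 : 0 ≤ ∑ u : α, (if u ∈ D then (1 : ℝ) else 0) := sum_nonneg fun u _ => hd u
  have s1 : ∑ u, ∑ v, ww A K (nga u) v ≤ 98 * K ^ 2 := by
    rw [H.sum_nga (fun u => ∑ v, ww A K u v)]
    exact H.ww_total hK
  have s2 : ∑ u, ∑ v, (if u ∈ D then (1 : ℝ) else 0) * ww A K (nga u) v ≤ 14 * K := by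
    calc ∑ u, ∑ v, (if u ∈ D then (1 : ℝ) else 0) * ww A K (nga u) v
        = ∑ u, (if u ∈ D then (1 : ℝ) else 0) * ∑ v, ww A K (nga u) v := by simp_rw [mul_sum]
      _ ≤ ∑ u, (if u ∈ D then (1 : ℝ) else 0) * (7 * K) :=
          sum_le_sum fun u _ => mul_le_mul_of_nonneg_left (H.ww_row hK _) (hd u)
      _ = (∑ u : α, (if u ∈ D then (1 : ℝ) else 0)) * (7 * K) := by rw [sum_mul]
      _ ≤ 2 * (7 * K) := mul_le_mul_of_nonneg_right hD (by positivity)
      _ = _ := by ring
  have s3 : ∑ u, ∑ v, ww A K (nga u) v * (if v ∈ D then (1 : ℝ) else 0) ≤ 14 * K := by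
    rw [sum_comm]
    calc ∑ v, ∑ u, ww A K (nga u) v * (if v ∈ D then (1 : ℝ) else 0)
        = ∑ v, (∑ u, ww A K (nga u) v) * (if v ∈ D then (1 : ℝ) else 0) := by simp_rw [sum_mul]
      _ ≤ ∑ v, (7 * K) * (if v ∈ D then (1 : ℝ) else 0) := by
          refine sum_le_sum fun v _ => mul_le_mul_of_nonneg_right ?_ (hd v)
          rw [H.sum_nga (fun u => ww A K u v)]
          exact H.ww_col hK _
      _ = (7 * K) * (∑ u : α, (if u ∈ D then (1 : ℝ) else 0)) := by rw [mul_sum]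
      _ ≤ (7 * K) * 2 := mul_le_mul_of_nonneg_left hD (by positivity)
      _ = _ := by ring
  have s4 : ∑ u : α, ∑ v : α, (if u ∈ D then (1 : ℝ) else 0) * (if v ∈ D then (1 : ℝ) else 0) ≤ 4 := by
    rw [← sum_mul_sum]
    nlinarith
  calc ∑ u, ∑ v, (4 * K * q * ff A K u + 7 * (if u ∈ D then 1 else 0)) * ww A K (nga u) v *
      (4 * K * q * ff A K v + 7 * (if v ∈ D then 1 else 0))
      ≤ ∑ u, ∑ v, (ε ^ 2 * ww A K (nga u) v +
        7 * ε * ((if u ∈ D then 1 else 0) * ww A K (nga u) v) +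
        7 * ε * (ww A K (nga u) v * (if v ∈ D then 1 else 0)) +
        294 * ((if u ∈ D then 1 else 0) * (if v ∈ D then 1 else 0))) :=
        sum_le_sum fun u _ => sum_le_sum fun v _ => h2 u v
    _ = ε ^ 2 * (∑ u, ∑ v, ww A K (nga u) v) +
        7 * ε * (∑ u, ∑ v, (if u ∈ D then (1 : ℝ) else 0) * ww A K (nga u) v) +
        7 * ε * (∑ u, ∑ v, ww A K (nga u) v * (if v ∈ D then (1 : ℝ) else 0)) +
        294 * (∑ u : α, ∑ v : α,
          (if u ∈ D then (1 : ℝ) else 0) * (if v ∈ D then (1 : ℝ) else 0)) := by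
        simp_rw [sum_add_distrib, ← mul_sum]
    _ ≤ ε ^ 2 * (98 * K ^ 2) + 7 * ε * (14 * K) + 7 * ε * (14 * K) + 294 * 4 := by
        gcongr
    _ = 98 * (ε * K) ^ 2 + 196 * (ε * K) + 1176 := by ring
    _ ≤ 98 * (14 / 1000) ^ 2 + 196 * (14 / 1000) + 1176 := by
        have : 0 ≤ ε * K := by positivity
        gcongr
    _ ≤ 1180 := by norm_num

/-- the main bound -/
theorem total_le (hq : 0 ≤ q) (hq1 : q * Fintype.card α ≤ 1) (hK : 1 ≤ K)
    (hq2 : q * (2000 * (K : ℝ) ^ 3) ≤ 1) :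
    ∑ u, ∑ v, (∑ a ∈ Ico K (2 * K), rc nga (mq A q) a u) *
      (∑ a ∈ Ico K (2 * K), (mq A q ^ (a + 2)) (nga u) v) *
      (∑ a ∈ Ico K (2 * K), rc nga (mq A q) a v) ≤ 1200 := by
  have hK1 : (1 : ℝ) ≤ K := by exact_mod_cast hK
  have hd : ∀ u : α, (0 : ℝ) ≤ if u ∈ D then 1 else 0 := by
    intro u
    split_ifs <;> norm_num
  set φ : α → ℝ := fun u => 4 * K * q * ff A K u + 7 * (if u ∈ D then 1 else 0) with hφ
  have hφ0 : ∀ u, 0 ≤ φ u := by
    intro u
    have := zero_le_one.trans (H.one_le_ff u)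
    have := hd u
    simp only [hφ]
    positivity
  have h1 : ∀ u v, (∑ a ∈ Ico K (2 * K), rc nga (mq A q) a u) *
      (∑ a ∈ Ico K (2 * K), (mq A q ^ (a + 2)) (nga u) v) *
      (∑ a ∈ Ico K (2 * K), rc nga (mq A q) a v) ≤
      φ u * (ww A K (nga u) v + 2 * K * q * ff A K (nga u) * ff A K (nga v)) * φ v := by
    intro u v
    have hu := H.sum_rc_le hq hq1 hK hq2 u
    have hv := H.sum_rc_le hq hq1 hK hq2 v
    have hp := H.sum_path_le hq hq1 hK hq2 (nga u) v
    have hu0 : 0 ≤ ∑ a ∈ Ico K (2 * K), rc nga (mq A q) a u :=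
      sum_nonneg fun a _ => H.rc_nonneg hq a u
    have hv0 : 0 ≤ ∑ a ∈ Ico K (2 * K), rc nga (mq A q) a v :=
      sum_nonneg fun a _ => H.rc_nonneg hq a v
    have hp0 : 0 ≤ ∑ a ∈ Ico K (2 * K), (mq A q ^ (a + 2)) (nga u) v :=
      sum_nonneg fun a _ => pow_entry_nonneg (H.mq_nonneg hq) _ _ _
    apply mul_le_mul _ hv hv0
    · exact mul_nonneg (hφ0 u) (hp0.trans hp)
    · exact mul_le_mul hu hp hp0 (hφ0 u)
  calc ∑ u, ∑ v, (∑ a ∈ Ico K (2 * K), rc nga (mq A q) a u) *
      (∑ a ∈ Ico K (2 * K), (mq A q ^ (a + 2)) (nga u) v) *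
      (∑ a ∈ Ico K (2 * K), rc nga (mq A q) a v)
      ≤ ∑ u, ∑ v, φ u * (ww A K (nga u) v + 2 * K * q * ff A K (nga u) * ff A K (nga v)) * φ v :=
        sum_le_sum fun u _ => sum_le_sum fun v _ => h1 u v
    _ = ∑ u, ∑ v, φ u * ww A K (nga u) v * φ v +
        2 * K * q * ((∑ u, φ u * ff A K (nga u)) * (∑ v, φ v * ff A K (nga v))) := by
        rw [sum_mul_sum, mul_sum, ← sum_add_distrib]
        refine sum_congr rfl fun u _ => ?_
        rw [mul_sum, ← sum_add_distrib]
        refine sum_congr rfl fun v _ => ?_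
        ring
    _ ≤ 1180 + 2 * K * q * ((104 * K) * (104 * K)) := by
        have h2 := H.sum_phi_ff hq hq1 hK hq2
        have h3 := H.sum_phi_ww hq hK hq2
        have h4 : 0 ≤ ∑ u, φ u * ff A K (nga u) :=
          sum_nonneg fun u _ => mul_nonneg (hφ0 u) (zero_le_one.trans (H.one_le_ff _))
        apply add_le_add h3
        apply mul_le_mul_of_nonneg_left _ (by positivity)
        exact mul_self_le_mul_self h4 h2
    _ = 1180 + 21632 / 2000 * (q * (2000 * (K : ℝ) ^ 3)) := by ring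
    _ ≤ 1200 := by linarith

end Hyp

end Pool.Agent.U147.Sat
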