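import Pool.Agent.U147.Sat.Clause
import Pool.Agent.U147.Sat.Walk

/-!
# Dumbbells: a family of minimal unsatisfiable 2-CNFs

A dumbbell is given by a sequence `P` of literals on distinct variables; the walk is
`P 0, ..., P a, ¬P 0, P (a+1), ..., P (a+c), P (a+c+1), ..., P (a+b+c+1), ¬P (a+c+1)`.
-/

set_option autoImplicit false

open Finset

namespace Pool.Agent.U147.Sat

variable {n : ℕ}

/-- the walk of a dumbbell -/
def dw (P : ℕ → Lit n) (a b c : ℕ) (i : ℕ) : Lit n :=
  if i ≤ a then P i else if i = a + 1 then ng (P 0) else if i < a + b + c + 3 then P (i - 1)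
  else ng (P (a + c + 1))

/-- the base index -/
def bi (a b c : ℕ) (i : ℕ) : ℕ :=
  if i ≤ a then i else if i = a + 1 then 0 else if i < a + b + c + 3 then i - 1
  else a + c + 1

/-- the clauses of a dumbbell -/
def ds (P : ℕ → Lit n) (a b c : ℕ) : Finset (Finset (Lit n)) :=
  (range (a + b + c + 3)).image fun i => cs (dw P a b c i) (dw P a b c (i + 1))

/-- rank of `dw i` -/
def hp (a b c : ℕ) (i : ℕ) : ℕ :=
  if i = 0 then 0 else if i ≤ a + c + 2 then a + c + 2 - i else a + b + c + 3 + c + 1 - i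

/-- rank of `¬ dw i` -/
def hm (a b c : ℕ) (i : ℕ) : ℕ :=
  if i ≤ a then i + c + 1 else if i < a + b + c + 3 then i - 1 - a else 0

theorem hp_spec (a b c : ℕ) {i : ℕ} (hi : i ≤ a + b + c + 3) :
    (i = 0 ∧ hp a b c i = 0) ∨ (1 ≤ i ∧ i ≤ a + c + 2 ∧ hp a b c i + i = a + c + 2) ∨
      (a + c + 2 < i ∧ hp a b c i + i = a + b + c + 3 + c + 1) := by
  unfold hp
  by_cases h1 : i = 0
  · left
    exact ⟨h1, if_pos h1⟩
  · right
    rw [if_neg h1]
    by_cases h2 : i ≤ a + c + 2
    · left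
      rw [if_pos h2]
      omega
    · right
      rw [if_neg h2]
      omega

theorem hm_spec (a b c : ℕ) {i : ℕ} (hi : i ≤ a + b + c + 3) :
    (i ≤ a ∧ hm a b c i = i + c + 1) ∨ (a < i ∧ i < a + b + c + 3 ∧ hm a b c i + 1 + a = i) ∨
      (i = a + b + c + 3 ∧ hm a b c i = 0) := by
  unfold hm
  by_cases h1 : i ≤ a
  · left
    exact ⟨h1, if_pos h1⟩
  · right
    rw [if_neg h1]
    by_cases h2 : i < a + b + c + 3
    · left
      rw [if_pos h2]
      omega
    · right
      rw [if_neg h2]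
      omega

section

variable {P : ℕ → Lit n} {a b c : ℕ}

theorem dw_fst (i : ℕ) : (dw P a b c i).1 = (P (bi a b c i)).1 := by
  unfold dw bi
  split_ifs <;> rfl

theorem bi_lt (ha : 1 ≤ a) {i : ℕ} (hi : i ≤ a + b + c + 3) : bi a b c i < a + b + c + 2 := by
  unfold bi
  split_ifs <;> omega

variable (hP : ∀ i j, i < a + b + c + 2 → j < a + b + c + 2 → (P i).1 = (P j).1 → i = j)

include hP

theorem dw_bi (ha : 1 ≤ a) {i j : ℕ} (hi : i ≤ a + b + c + 3) (hj : j ≤ a + b + c + 3)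
    (h : (dw P a b c i).1 = (dw P a b c j).1) : bi a b c i = bi a b c j := by
  rw [dw_fst, dw_fst] at h
  exact hP _ _ (bi_lt ha hi) (bi_lt ha hj) h

theorem dw_cases (ha : 1 ≤ a) (hb : 1 ≤ b) {i j : ℕ} (hi : i ≤ a + b + c + 3)
    (hj : j ≤ a + b + c + 3) (h : (dw P a b c i).1 = (dw P a b c j).1) :
    i = j ∨ (i = 0 ∧ j = a + 1) ∨ (i = a + 1 ∧ j = 0) ∨
      (i = a + c + 2 ∧ j = a + b + c + 3) ∨ (i = a + b + c + 3 ∧ j = a + c + 2) := by
  have h1 := dw_bi hP ha hi hj h
  unfold bi at h1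
  split_ifs at h1 <;> omega

omit hP in
theorem dw_zero : dw P a b c 0 = P 0 := by simp [dw]

omit hP in
theorem dw_a1 : dw P a b c (a + 1) = ng (dw P a b c 0) := by
  rw [dw_zero]
  unfold dw
  rw [if_neg (by omega), if_pos rfl]

omit hP in
theorem dw_y (hb : 1 ≤ b) : dw P a b c (a + c + 2) = P (a + c + 1) := by
  unfold dw
  rw [if_neg (by omega), if_neg (by omega), if_pos (by omega)]
  congr 1

omit hP in
theorem dw_L (hb : 1 ≤ b) : dw P a b c (a + b + c + 3) = ng (dw P a b c (a + c + 2)) := by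
  rw [dw_y hb]
  unfold dw
  rw [if_neg (by omega), if_neg (by omega), if_neg (by omega)]

theorem dw_inj (ha : 1 ≤ a) (hb : 1 ≤ b) {i j : ℕ} (hi : i ≤ a + b + c + 3)
    (hj : j ≤ a + b + c + 3) (h : dw P a b c i = dw P a b c j) : i = j := by
  rcases dw_cases hP ha hb hi hj (by rw [h]) with h1 | ⟨h1, h2⟩ | ⟨h1, h2⟩ | ⟨h1, h2⟩ | ⟨h1, h2⟩
  · exact h1
  · rw [h1, h2, dw_a1] at h
    exact absurd h.symm (ng_ne _)
  · rw [h1, h2, dw_a1] at h
    exact absurd h (ng_ne _)
  · rw [h1, h2, dw_L hb] at h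
    exact absurd h.symm (ng_ne _)
  · rw [h1, h2, dw_L hb] at h
    exact absurd h (ng_ne _)

theorem dw_ng (ha : 1 ≤ a) (hb : 1 ≤ b) {i j : ℕ} (hi : i ≤ a + b + c + 3)
    (hj : j ≤ a + b + c + 3) (h : dw P a b c i = ng (dw P a b c j)) :
    (i = 0 ∧ j = a + 1) ∨ (i = a + 1 ∧ j = 0) ∨
      (i = a + c + 2 ∧ j = a + b + c + 3) ∨ (i = a + b + c + 3 ∧ j = a + c + 2) := by
  rcases dw_cases hP ha hb hi hj (by rw [h]; rfl) with h1 | h1
  · subst h1
    exact absurd h.symm (ng_ne _)
  · exact h1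

theorem ds_injOn (ha : 1 ≤ a) (hb : 1 ≤ b) {i j : ℕ} (hi : i < a + b + c + 3)
    (hj : j < a + b + c + 3)
    (h : cs (dw P a b c i) (dw P a b c (i + 1)) = cs (dw P a b c j) (dw P a b c (j + 1))) :
    i = j := by
  rw [cs_eq_iff] at h
  rcases h with ⟨h, _⟩ | ⟨h, h'⟩
  · exact dw_inj hP ha hb hi.le hj.le h
  · have h1 := dw_ng hP ha hb (by omega) (by omega) h
    have h2 := dw_ng hP ha hb (by omega) (by omega) h'
    omega

theorem ds_card (ha : 1 ≤ a) (hb : 1 ≤ b) : (ds P a b c).card = a + b + c + 3 := by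
  unfold ds
  rw [card_image_of_injOn, card_range]
  intro i hi j hj h
  rw [mem_coe, mem_range] at hi hj
  exact ds_injOn hP ha hb hi hj h

theorem ds_isCl (ha : 1 ≤ a) (hb : 1 ≤ b) : ∀ C ∈ ds P a b c, IsCl C := by
  intro C hC
  unfold ds at hC
  rw [mem_image] at hC
  obtain ⟨i, hi, rfl⟩ := hC
  rw [mem_range] at hi
  apply isCl_cs
  intro h
  have := dw_cases hP ha hb (by omega) (by omega) h
  omega

omit hP in
theorem ds_unsat (hb : 1 ≤ b) (s : Fin n → Bool) :
    ¬ ∀ C ∈ ds P a b c, ∃ l ∈ C, s l.1 = l.2 := by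
  intro h
  have step : ∀ i, i < a + b + c + 3 → tr s (dw P a b c i) → tr s (dw P a b c (i + 1)) := by
    intro i hi h1
    exact sat_cs (h _ (mem_image_of_mem _ (mem_range.2 hi))) h1
  have walk : ∀ i j, i + j ≤ a + b + c + 3 → tr s (dw P a b c i) → tr s (dw P a b c (i + j)) := by
    intro i j
    induction j with
    | zero => intro _ h1; exact h1
    | succ j ih =>
      intro hij h1
      exact step (i + j) (by omega) (ih (by omega) h1)
  have h0 : ¬ tr s (dw P a b c 0) := by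
    intro h1
    have h2 := walk 0 (a + 1) (by omega) h1
    rw [zero_add, dw_a1] at h2
    exact tr_ng.1 h2 h1
  have h1 : tr s (dw P a b c (a + 1)) := by
    rw [dw_a1]
    exact tr_ng.2 h0
  have h2 := walk (a + 1) (c + 1) (by omega) h1
  have e : a + 1 + (c + 1) = a + c + 2 := by omega
  rw [e] at h2
  have h3 := walk (a + c + 2) (b + 1) (by omega) h2
  have e' : a + c + 2 + (b + 1) = a + b + c + 3 := by omega
  rw [e', dw_L hb] at h3
  exact tr_ng.1 h3 h2

omit hP in
theorem edge_iff {u v : Lit n} : cs u v ∈ ds P a b c ↔ ∃ i < a + b + c + 3,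
    (u = dw P a b c i ∧ v = dw P a b c (i + 1)) ∨
    (u = ng (dw P a b c (i + 1)) ∧ v = ng (dw P a b c i)) := by
  unfold ds
  simp only [mem_image, mem_range]
  constructor
  · rintro ⟨i, hi, h⟩
    exact ⟨i, hi, cs_eq_iff.1 h.symm⟩
  · rintro ⟨i, hi, h⟩
    exact ⟨i, hi, (cs_eq_iff.2 h).symm⟩

/-- the rank function -/
noncomputable def drk (P : ℕ → Lit n) (a b c : ℕ) (u : Lit n) : ℕ := by
  classical
  exact if h : ∃ i, i ≤ a + b + c + 3 ∧ dw P a b c i = u then hp a b c h.choose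
  else if h : ∃ i, i ≤ a + b + c + 3 ∧ ng (dw P a b c i) = u then hm a b c h.choose
  else 0

theorem drk_dw (ha : 1 ≤ a) (hb : 1 ≤ b) {i : ℕ} (hi : i ≤ a + b + c + 3) :
    drk P a b c (dw P a b c i) = hp a b c i := by
  have h : ∃ j, j ≤ a + b + c + 3 ∧ dw P a b c j = dw P a b c i := ⟨i, hi, rfl⟩
  unfold drk
  rw [dif_pos h]
  congr 1
  exact dw_inj hP ha hb h.choose_spec.1 hi h.choose_spec.2

theorem drk_ng (ha : 1 ≤ a) (hb : 1 ≤ b) {i : ℕ} (hi : i ≤ a + b + c + 3) :
    drk P a b c (ng (dw P a b c i)) = hm a b c i := by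
  unfold drk
  by_cases h : ∃ j, j ≤ a + b + c + 3 ∧ dw P a b c j = ng (dw P a b c i)
  · rw [dif_pos h]
    have h1 := dw_ng hP ha hb h.choose_spec.1 hi h.choose_spec.2
    have h2 := hp_spec a b c h.choose_spec.1
    have h3 := hm_spec a b c hi
    generalize hp a b c h.choose = X at h2 ⊢
    generalize h.choose = j at h1 h2
    omega
  · rw [dif_neg h]
    have h' : ∃ j, j ≤ a + b + c + 3 ∧ ng (dw P a b c j) = ng (dw P a b c i) := ⟨i, hi, rfl⟩
    rw [dif_pos h']
    congr 1
    exact dw_inj hP ha hb h'.choose_spec.1 hi (ng_inj h'.choose_spec.2)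

/-- the adjacency matrix -/
def dA (P : ℕ → Lit n) (a b c : ℕ) : Matrix (Lit n) (Lit n) ℝ :=
  Matrix.of fun u v => if cs u v ∈ ds P a b c then 1 else 0

omit hP in
theorem dA_one {u v : Lit n} : dA P a b c u v = 1 ↔ cs u v ∈ ds P a b c := by
  unfold dA
  rw [Matrix.of_apply]
  split_ifs with h <;> simp [h]

omit hP in
theorem dA_apply (u v : Lit n) : dA P a b c u v = if cs u v ∈ ds P a b c then 1 else 0 := rfl

theorem rank_step (ha : 1 ≤ a) (hb : 1 ≤ b) {u v : Lit n} (h : cs u v ∈ ds P a b c) :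
    (1 ≤ drk P a b c u → drk P a b c v + 1 = drk P a b c u) ∧
    (drk P a b c u = 0 → (drk P a b c v = a + c + 1 ∧ u = dw P a b c 0) ∨
      (drk P a b c v = b + c + 1 ∧ u = dw P a b c (a + c + 2))) := by
  obtain ⟨i, hi, h1⟩ := edge_iff.1 h
  rcases h1 with ⟨rfl, rfl⟩ | ⟨rfl, rfl⟩
  · rw [drk_dw hP ha hb hi.le, drk_dw hP ha hb (by omega)]
    have s1 := hp_spec a b c hi.le
    have s2 := hp_spec a b c (show i + 1 ≤ a + b + c + 3 by omega)
    constructor
    · intro h2
      omega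
    · intro h2
      have h3 : i = 0 ∨ i = a + c + 2 := by omega
      rcases h3 with h3 | h3
      · left
        refine ⟨by omega, by rw [h3]⟩
      · right
        refine ⟨by omega, by rw [h3]⟩
  · rw [drk_ng hP ha hb (show i + 1 ≤ a + b + c + 3 by omega), drk_ng hP ha hb hi.le]
    have s1 := hm_spec a b c hi.le
    have s2 := hm_spec a b c (show i + 1 ≤ a + b + c + 3 by omega)
    constructor
    · intro h2
      omega
    · intro h2
      have h3 : i = a ∨ i = a + b + c + 2 := by omega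
      rcases h3 with h3 | h3
      · left
        refine ⟨by omega, ?_⟩
        rw [h3, dw_a1, ng_ng]
      · right
        refine ⟨by omega, ?_⟩
        have e : i + 1 = a + b + c + 3 := by omega
        rw [e, dw_L hb, ng_ng]

theorem succ_unique (ha : 1 ≤ a) (hb : 1 ≤ b) {u v v' : Lit n} (hu : 1 ≤ drk P a b c u)
    (h : cs u v ∈ ds P a b c) (h' : cs u v' ∈ ds P a b c) : v = v' := by
  obtain ⟨i, hi, h1⟩ := edge_iff.1 h
  obtain ⟨j, hj, h2⟩ := edge_iff.1 h'
  have key : ∀ i j, i < a + b + c + 3 → j < a + b + c + 3 → u = dw P a b c i →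
      u = ng (dw P a b c (j + 1)) → False := by
    intro i j hi hj e1 e2
    have h3 := dw_ng hP ha hb hi.le (show j + 1 ≤ a + b + c + 3 by omega) (e1.symm.trans e2)
    rw [e1, drk_dw hP ha hb hi.le] at hu
    have s1 := hp_spec a b c hi.le
    omega
  rcases h1 with ⟨h1, h1'⟩ | ⟨h1, h1'⟩ <;> rcases h2 with ⟨h2, h2'⟩ | ⟨h2, h2'⟩
  · have := dw_inj hP ha hb hi.le hj.le (h1.symm.trans h2)
    subst this
    rw [h1', h2']
  · exact (key i j hi hj h1 h2).elim
  · exact (key j i hj hi h2 h1).elim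
  · have := dw_inj hP ha hb (show i + 1 ≤ a + b + c + 3 by omega)
      (show j + 1 ≤ a + b + c + 3 by omega) (ng_inj (h1.symm.trans h2))
    have e : i = j := by omega
    subst e
    rw [h1', h2']

theorem two_succ (ha : 1 ≤ a) (hb : 1 ≤ b) (u : Lit n) : ∑ v, dA P a b c u v ≤ 2 := by
  simp_rw [dA_apply]
  rw [sum_boole]
  have h1 : ∃ v1 v2 : Lit n, (univ.filter fun v => cs u v ∈ ds P a b c) ⊆ {v1, v2} := by
    classical
    by_cases h1 : ∃ i, i < a + b + c + 3 ∧ u = dw P a b c i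
    · obtain ⟨i, hi, hui⟩ := h1
      by_cases h2 : ∃ i, i < a + b + c + 3 ∧ u = ng (dw P a b c (i + 1))
      · obtain ⟨j, hj, huj⟩ := h2
        refine ⟨dw P a b c (i + 1), ng (dw P a b c j), ?_⟩
        intro v hv
        rw [mem_filter] at hv
        obtain ⟨k, hk, h3⟩ := edge_iff.1 hv.2
        rw [mem_insert, mem_singleton]
        rcases h3 with ⟨h3, h3'⟩ | ⟨h3, h3'⟩
        · have := dw_inj hP ha hb hi.le hk.le (hui.symm.trans h3)
          subst this
          exact Or.inl h3'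
        · have := dw_inj hP ha hb (show j + 1 ≤ a + b + c + 3 by omega)
            (show k + 1 ≤ a + b + c + 3 by omega) (ng_inj (huj.symm.trans h3))
          have e : j = k := by omega
          subst e
          exact Or.inr h3'
      · refine ⟨dw P a b c (i + 1), dw P a b c (i + 1), ?_⟩
        intro v hv
        rw [mem_filter] at hv
        obtain ⟨k, hk, h3⟩ := edge_iff.1 hv.2
        rw [mem_insert, mem_singleton]
        rcases h3 with ⟨h3, h3'⟩ | ⟨h3, h3'⟩
        · have := dw_inj hP ha hb hi.le hk.le (hui.symm.trans h3)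
          subst this
          exact Or.inl h3'
        · exact absurd ⟨k, hk, h3⟩ h2
    · by_cases h2 : ∃ i, i < a + b + c + 3 ∧ u = ng (dw P a b c (i + 1))
      · obtain ⟨j, hj, huj⟩ := h2
        refine ⟨ng (dw P a b c j), ng (dw P a b c j), ?_⟩
        intro v hv
        rw [mem_filter] at hv
        obtain ⟨k, hk, h3⟩ := edge_iff.1 hv.2
        rw [mem_insert, mem_singleton]
        rcases h3 with ⟨h3, h3'⟩ | ⟨h3, h3'⟩
        · exact absurd ⟨k, hk, h3⟩ h1
        · have := dw_inj hP ha hb (show j + 1 ≤ a + b + c + 3 by omega)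
            (show k + 1 ≤ a + b + c + 3 by omega) (ng_inj (huj.symm.trans h3))
          have e : j = k := by omega
          subst e
          exact Or.inr h3'
      · refine ⟨u, u, ?_⟩
        intro v hv
        rw [mem_filter] at hv
        obtain ⟨k, hk, h3⟩ := edge_iff.1 hv.2
        rcases h3 with ⟨h3, h3'⟩ | ⟨h3, h3'⟩
        · exact absurd ⟨k, hk, h3⟩ h1
        · exact absurd ⟨k, hk, h3⟩ h2
  obtain ⟨v1, v2, h2⟩ := h1
  have h3 := (card_le_card h2).trans card_le_two
  exact_mod_cast h3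

/-- the digraph of a dumbbell satisfies the hypotheses of the transfer matrix bound -/
theorem dumb_hyp {K : ℕ} (hK : 4 ≤ K) (ha : 1 ≤ a) (hb : 1 ≤ b) (ha1 : K + 1 ≤ a)
    (hb1 : K + 1 ≤ b) (hc1 : K + 1 ≤ c) (ha2 : a ≤ 2 * K) (hb2 : b ≤ 2 * K) (hc2 : c ≤ 2 * K) :
    Hyp ng (dA P a b c) (drk P a b c)
      ((range (a + b + c + 4)).image (dw P a b c) ∪
        (range (a + b + c + 4)).image (fun i => ng (dw P a b c i)))
      {dw P a b c 0, dw P a b c (a + c + 2)} (a + c + 1) (b + c + 1) K where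
  inv := ng_ng
  zo := by
    intro u v
    rw [dA_apply]
    split_ifs <;> simp
  sym := by
    intro u v
    rw [dA_apply, dA_apply, cs_ng]
  r1 := fun u v h => (rank_step hP ha hb (dA_one.1 h)).1
  r2 := by
    intro u v h h0
    rcases (rank_step hP ha hb (dA_one.1 h)).2 h0 with h1 | h1
    · exact Or.inl h1.1
    · exact Or.inr h1.1
  x1 := by omega
  x2 := by omega
  u1 := fun u v v' h0 h h' => succ_unique hP ha hb h0 (dA_one.1 h) (dA_one.1 h')
  u2 := two_succ hP ha hb
  supp := by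
    intro u v h
    obtain ⟨i, hi, h1⟩ := edge_iff.1 (dA_one.1 h)
    rw [mem_union, mem_image, mem_image]
    rcases h1 with ⟨h1, _⟩ | ⟨h1, _⟩
    · exact Or.inl ⟨i, by rw [mem_range]; omega, h1.symm⟩
    · exact Or.inr ⟨i + 1, by rw [mem_range]; omega, h1.symm⟩
  cT := by
    refine (card_union_le _ _).trans ?_
    have h1 : ((range (a + b + c + 4)).image (dw P a b c)).card ≤ a + b + c + 4 := by
      refine card_image_le.trans ?_
      rw [card_range]
    have h2 : ((range (a + b + c + 4)).image (fun i => ng (dw P a b c i))).card ≤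
        a + b + c + 4 := by
      refine card_image_le.trans ?_
      rw [card_range]
    omega
  dd := by
    intro u v h h0
    rw [mem_insert, mem_singleton]
    rcases (rank_step hP ha hb (dA_one.1 h)).2 h0 with h1 | h1
    · exact Or.inl h1.2
    · exact Or.inr h1.2
  cD := card_le_two

end

end Pool.Agent.U147.Sat
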