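import Mathlib

/-!
# Ears in strongly connected digraphs
-/

set_option autoImplicit false

open Relation

namespace Pool.Agent.U147.Sat

variable {α : Type*} {D : α → α → Prop}

/-- walks of length `k` -/
def IsW (D : α → α → Prop) (k : ℕ) (x : ℕ → α) : Prop := ∀ t < k, D (x t) (x (t + 1))

theorem walk_of_transGen {a b : α} (h : TransGen D a b) :
    ∃ k, 1 ≤ k ∧ ∃ x : ℕ → α, x 0 = a ∧ x k = b ∧ IsW D k x := by
  induction h with
  | @single b h =>
    refine ⟨1, le_rfl, fun t => if t = 0 then a else b, by simp, by simp, ?_⟩
    intro t ht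
    have : t = 0 := by omega
    subst this
    simpa using h
  | @tail b c _ h ih =>
    obtain ⟨k, hk, x, h0, hb, hw⟩ := ih
    refine ⟨k + 1, by omega, fun t => if t ≤ k then x t else c, by simp [h0], by simp, ?_⟩
    intro t ht
    by_cases h1 : t + 1 ≤ k
    · simp only
      rw [if_pos (by omega), if_pos h1]
      exact hw t (by omega)
    · have : t = k := by omega
      subst this
      simp only
      rw [if_pos le_rfl, if_neg (by omega), hb]
      exact h

/-- shortest walks between two sets -/
theorem shortest (A B : α → Prop)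
    (h : ∃ k, 1 ≤ k ∧ ∃ x : ℕ → α, A (x 0) ∧ B (x k) ∧ IsW D k x) :
    ∃ k, 1 ≤ k ∧ ∃ x : ℕ → α, A (x 0) ∧ B (x k) ∧ IsW D k x ∧
      (∀ t, 0 < t → t < k → ¬ A (x t) ∧ ¬ B (x t)) ∧
      (∀ s t, 0 < s → s < t → t < k → x s ≠ x t) := by
  classical
  have hmin : ∀ {m : ℕ}, m < Nat.find h →
      ¬ (1 ≤ m ∧ ∃ x : ℕ → α, A (x 0) ∧ B (x m) ∧ IsW D m x) := fun hm => Nat.find_min h hm
  obtain ⟨hk, x, hA, hB, hw⟩ := Nat.find_spec h
  set k := Nat.find h with hkdef
  refine ⟨k, hk, x, hA, hB, hw, ?_, ?_⟩
  · intro t ht htk
    constructor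
    · intro h1
      apply hmin (m := k - t) (by omega)
      refine ⟨by omega, fun r => x (r + t), by simpa using h1, ?_, ?_⟩
      · have : k - t + t = k := by omega
        simp only [this]
        exact hB
      · intro r hr
        have := hw (r + t) (by omega)
        have e : r + 1 + t = r + t + 1 := by omega
        simp only [e]
        exact this
    · intro h1
      apply hmin (m := t) htk
      exact ⟨ht, x, hA, h1, fun r hr => hw r (by omega)⟩
  · intro s t hs hst htk h1
    apply hmin (m := k - (t - s)) (by omega)
    refine ⟨by omega, fun r => if r ≤ s then x r else x (r + (t - s)), ?_, ?_, ?_⟩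
    · simpa using hA
    · have e : ¬ (k - (t - s) ≤ s) := by omega
      have e' : k - (t - s) + (t - s) = k := by omega
      simp only
      rw [if_neg e, e']
      exact hB
    · intro r hr
      simp only
      by_cases h2 : r + 1 ≤ s
      · rw [if_pos (by omega), if_pos h2]
        exact hw r (by omega)
      · by_cases h3 : r ≤ s
        · have : r = s := by omega
          subst this
          rw [if_pos le_rfl, if_neg (by omega), h1]
          have e : r + 1 + (t - r) = t + 1 := by omega
          rw [e]
          exact hw t (by omega)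
        · rw [if_neg h3, if_neg (by omega)]
          have e : r + 1 + (t - s) = r + (t - s) + 1 := by omega
          rw [e]
          exact hw _ (by omega)

/-- the ear structure -/
theorem ears (hirr : ∀ i, ¬ D i i) {u v : α} (huv : u ≠ v) (h1 : TransGen D u v)
    (h2 : TransGen D v u) :
    (∃ k w : ℕ, ∃ x : ℕ → α, 0 < w ∧ w < k ∧ (∀ s t, s < t → t < k → x s ≠ x t) ∧
      (∀ t, 0 < t → t < k → D (x (t - 1)) (x t)) ∧ D (x (k - 1)) (x 0) ∧ x 0 = u ∧ x w = v) ∨
    (∃ k g i h w : ℕ, ∃ x : ℕ → α, 2 ≤ g ∧ g ≤ w ∧ w < k ∧ i < g ∧ h < w ∧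
      (∀ s t, s < t → t < k → x s ≠ x t) ∧
      (∀ t, 0 < t → t < k → t ≠ g → D (x (t - 1)) (x t)) ∧ D (x (g - 1)) (x 0) ∧
      D (x i) (x g) ∧ D (x (k - 1)) (x h) ∧ x 0 = u ∧ x w = v) := by
  have huu : TransGen D u u := h1.trans h2
  obtain ⟨g0, hg0, z0, hz0, hz0', hz0w⟩ := walk_of_transGen huu
  obtain ⟨g, hg, z, hz, hz', hzw, hz1, hz2⟩ := shortest (D := D) (fun a => a = u) (fun a => a = u)
    ⟨g0, hg0, z0, hz0, hz0', hz0w⟩
  have hzinj : ∀ s t, s < t → t < g → z s ≠ z t := by
    intro s t hst htg
    rcases Nat.eq_zero_or_pos s with h0 | h0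
    · subst h0
      rw [hz]
      exact fun h => (hz1 t hst htg).1 h.symm
    · exact hz2 s t h0 hst htg
  by_cases hv : ∃ i, i < g ∧ z i = v
  · left
    obtain ⟨i, hi, hiv⟩ := hv
    refine ⟨g, i, z, ?_, hi, hzinj, ?_, ?_, hz, hiv⟩
    · rcases Nat.eq_zero_or_pos i with h0 | h0
      · subst h0
        exact absurd (hz.symm.trans hiv) huv
      · exact h0
    · intro t ht htg
      have := hzw (t - 1) (by omega)
      have e : t - 1 + 1 = t := by omega
      rw [e] at this
      exact this
    · have := hzw (g - 1) (by omega)
      have e : g - 1 + 1 = g := by omega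
      rw [e, hz', ← hz] at this
      exact this
  · right
    have hv' : ∀ i, i < g → z i ≠ v := fun i hi h => hv ⟨i, hi, h⟩
    obtain ⟨r0, hr0, y0, hy0, hy0', hy0w⟩ := walk_of_transGen h1
    obtain ⟨r, hr, y, hy, hy', hyw, hy1, hy2⟩ := shortest (D := D)
      (fun a => ∃ i, i < g ∧ z i = a) (fun a => a = v)
      ⟨r0, hr0, y0, ⟨0, by omega, by rw [hz, hy0]⟩, hy0', hy0w⟩
    obtain ⟨s0, hs0, p0, hp0, hp0', hp0w⟩ := walk_of_transGen h2
    obtain ⟨s, hs, p, hp, hp', hpw, hp1, hp2⟩ := shortest (D := D)
      (fun a => a = v) (fun a => (∃ i, i < g ∧ z i = a) ∨ ∃ i, 0 < i ∧ i < r ∧ y i = a)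
      ⟨s0, hs0, p0, hp0, Or.inl ⟨0, by omega, by rw [hz, hp0']⟩, hp0w⟩
    obtain ⟨i, hi, hiy⟩ := hy
    -- the sequence
    let x : ℕ → α := fun t => if t < g then z t else if t < g + r then y (t - g + 1)
      else p (t - g - r + 1)
    have x1 : ∀ t, t < g → x t = z t := fun t ht => if_pos ht
    have x2 : ∀ t, g ≤ t → t < g + r → x t = y (t - g + 1) := by
      intro t ht ht'
      simp only [x]
      rw [if_neg (by omega), if_pos ht']
    have x3 : ∀ t, g + r ≤ t → x t = p (t - g - r + 1) := by
      intro t ht
      simp only [x]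
      rw [if_neg (by omega), if_neg (by omega)]
    have xw : x (g + r - 1) = v := by
      rw [x2 _ (by omega) (by omega)]
      have e : g + r - 1 - g + 1 = r := by omega
      rw [e, hy']
    have xp : ∀ j, j < s → x (g + r - 1 + j) = p j := by
      intro j hj
      rcases Nat.eq_zero_or_pos j with h0 | h0
      · subst h0
        rw [add_zero, xw, hp]
      · rw [x3 _ (by omega)]
        have e : g + r - 1 + j - g - r + 1 = j := by omega
        rw [e]
    have hg2 : 2 ≤ g := by
      by_contra hlt
      have : g = 1 := by omega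
      subst this
      have := hzw 0 (by omega)
      rw [zero_add, hz', hz] at this
      exact hirr u this
    have hinj : ∀ a b, a < b → b < g + r + s - 1 → x a ≠ x b := by
      intro a b hab hb
      by_cases b1 : b < g
      · rw [x1 a (by omega), x1 b b1]
        exact hzinj a b hab b1
      · by_cases b2 : b < g + r
        · rw [x2 b (by omega) b2]
          by_cases a1 : a < g
          · rw [x1 a a1]
            by_cases c1 : b - g + 1 < r
            · intro h
              exact (hy1 _ (by omega) c1).1 ⟨a, a1, h⟩
            · have e : b - g + 1 = r := by omega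
              rw [e, hy']
              exact hv' a a1
          · rw [x2 a (by omega) (by omega)]
            by_cases c1 : b - g + 1 < r
            · exact hy2 _ _ (by omega) (by omega) c1
            · have e : b - g + 1 = r := by omega
              rw [e, hy']
              exact (hy1 _ (by omega) (by omega)).2
        · rw [x3 b (by omega)]
          have hpb := hp1 (b - g - r + 1) (by omega) (by omega)
          by_cases a1 : a < g
          · rw [x1 a a1]
            intro h
            exact hpb.2 (Or.inl ⟨a, a1, h⟩)
          · by_cases a2 : a < g + r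
            · rw [x2 a (by omega) a2]
              by_cases c1 : a - g + 1 < r
              · intro h
                exact hpb.2 (Or.inr ⟨a - g + 1, by omega, c1, h⟩)
              · have e : a - g + 1 = r := by omega
                rw [e, hy']
                intro h
                exact hpb.1 h.symm
            · rw [x3 a (by omega)]
              exact hp2 _ _ (by omega) (by omega) (by omega)
    have hstep : ∀ t, 0 < t → t < g + r + s - 1 → t ≠ g → D (x (t - 1)) (x t) := by
      intro t ht htk htg
      by_cases b1 : t < g
      · rw [x1 _ (by omega), x1 t b1]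
        have := hzw (t - 1) (by omega)
        have e : t - 1 + 1 = t := by omega
        rw [e] at this
        exact this
      · by_cases b2 : t < g + r
        · rw [x2 _ (by omega) (by omega), x2 t (by omega) b2]
          have := hyw (t - 1 - g + 1) (by omega)
          have e : t - 1 - g + 1 + 1 = t - g + 1 := by omega
          rw [e] at this
          exact this
        · have := hpw (t - (g + r)) (by omega)
          rw [← xp _ (by omega), ← xp _ (by omega)] at this
          have e1 : g + r - 1 + (t - (g + r)) = t - 1 := by omega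
          have e2 : g + r - 1 + (t - (g + r) + 1) = t := by omega
          rw [e1, e2] at this
          exact this
    have hlast : ∀ h, x h = p s → D (x (g + r + s - 1 - 1)) (x h) := by
      intro h hh
      have := hpw (s - 1) (by omega)
      have e : s - 1 + 1 = s := by omega
      rw [e, ← hh, ← xp _ (by omega)] at this
      have e1 : g + r - 1 + (s - 1) = g + r + s - 1 - 1 := by omega
      rw [e1] at this
      exact this
    have hfirst : D (x (g - 1)) (x 0) := by
      rw [x1 _ (by omega), x1 0 (by omega)]
      have := hzw (g - 1) (by omega)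
      have e : g - 1 + 1 = g := by omega
      rw [e, hz', ← hz] at this
      exact this
    have hmid : D (x i) (x g) := by
      rw [x1 i hi, x2 g le_rfl (by omega), hiy]
      have := hyw 0 (by omega)
      have e : g - g + 1 = 0 + 1 := by omega
      rw [e]
      exact this
    rcases hp' with ⟨t, ht, htz⟩ | ⟨t, ht0, htr, hty⟩
    · exact ⟨g + r + s - 1, g, i, t, g + r - 1, x, hg2, by omega, by omega, hi, by omega, hinj,
        hstep, hfirst, hmid, hlast t (by rw [x1 t ht, htz]), by rw [x1 0 (by omega), hz], xw⟩
    · refine ⟨g + r + s - 1, g, i, g + t - 1, g + r - 1, x, hg2, by omega, by omega, hi,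
        by omega, hinj, hstep, hfirst, hmid, hlast _ ?_, by rw [x1 0 (by omega), hz], xw⟩
      rw [x2 _ (by omega) (by omega)]
      have e : g + t - 1 - g + 1 = t := by omega
      rw [e, hty]

end Pool.Agent.U147.Sat
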