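import Mathlib

/-!
# Uniformly random orderings of a finite set

`cnt m S` is the number of orderings in which all the elements of `S` are among the first `m`.
-/

set_option autoImplicit false

open Finset

namespace Pool.Agent.U147.Sat

variable {β : Type*} [Fintype β] [DecidableEq β] {N : ℕ}

/-- the set of the first `m` elements -/
def fst (m : ℕ) (e : Fin N ≃ β) : Finset β := univ.filter fun c => (e.symm c).val < m

theorem mem_fst {m : ℕ} {e : Fin N ≃ β} {c : β} : c ∈ fst m e ↔ (e.symm c).val < m := by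
  simp [fst]

/-- the number of orderings whose first `m` elements contain `S` -/
def cnt (N m : ℕ) (S : Finset β) : ℕ := (univ.filter fun e : Fin N ≃ β => S ⊆ fst m e).card

theorem card_fst {m : ℕ} (hm : m ≤ N) (e : Fin N ≃ β) : (fst m e).card = m := by
  have h1 : fst m e = (univ.filter fun i : Fin N => i.val < m).map e.toEmbedding := by
    ext c
    simp only [fst, mem_filter, mem_univ, true_and, mem_map, Equiv.coe_toEmbedding]
    constructor
    · intro h
      exact ⟨e.symm c, h, e.apply_symm_apply c⟩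
    · rintro ⟨i, hi, rfl⟩
      rwa [e.symm_apply_apply]
  rw [h1, card_map, Fin.card_filter_val_lt]
  omega

theorem cnt_empty (m : ℕ) : cnt N m (∅ : Finset β) = Fintype.card (Fin N ≃ β) := by
  simp [cnt]

theorem cnt_swap (m : ℕ) {S : Finset β} {c d : β} (hc : c ∉ S) (hd : d ∉ S) :
    cnt N m (insert c S) = cnt N m (insert d S) := by
  unfold cnt
  apply card_bij (fun (e : Fin N ≃ β) _ => e.trans (Equiv.swap c d))
  · intro e he
    simp only [mem_filter, mem_univ, true_and] at he ⊢
    intro x hx
    rw [mem_fst]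
    simp only [Equiv.symm_trans_apply, Equiv.symm_swap]
    rw [mem_insert] at hx
    rcases hx with rfl | hx
    · rw [Equiv.swap_apply_right]
      exact mem_fst.1 (he (mem_insert_self _ _))
    · rw [Equiv.swap_apply_of_ne_of_ne (by rintro rfl; exact hc hx) (by rintro rfl; exact hd hx)]
      exact mem_fst.1 (he (mem_insert_of_mem hx))
  · intro e _ e' _ h
    ext i
    have h1 := congrArg (fun f : Fin N ≃ β => Equiv.swap c d (f i)) h
    simpa using h1
  · intro e he
    simp only [mem_filter, mem_univ, true_and] at he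
    refine ⟨e.trans (Equiv.swap c d), ?_, ?_⟩
    · simp only [mem_filter, mem_univ, true_and]
      intro x hx
      rw [mem_fst]
      simp only [Equiv.symm_trans_apply, Equiv.symm_swap]
      rw [mem_insert] at hx
      rcases hx with rfl | hx
      · rw [Equiv.swap_apply_left]
        exact mem_fst.1 (he (mem_insert_self _ _))
      · rw [Equiv.swap_apply_of_ne_of_ne (by rintro rfl; exact hc hx) (by rintro rfl; exact hd hx)]
        exact mem_fst.1 (he (mem_insert_of_mem hx))
    · ext i
      simp

theorem cnt_rec (hN : Fintype.card β = N) {m : ℕ} (hm : m ≤ N) {S : Finset β} {c : β}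
    (hc : c ∉ S) : (N - S.card) * cnt N m (insert c S) = (m - S.card) * cnt N m S := by
  have h1 : ∑ d ∈ univ \ S, cnt N m (insert d S) = (N - S.card) * cnt N m (insert c S) := by
    rw [sum_congr rfl (fun d hd => cnt_swap m (mem_sdiff.1 hd).2 hc), sum_const,
      card_univ_sdiff, hN, smul_eq_mul]
  have h2 : ∑ d ∈ univ \ S, cnt N m (insert d S) =
      ∑ e ∈ (univ : Finset (Fin N ≃ β)).filter (fun e => S ⊆ fst m e), (m - S.card) := by
    have h3 : ∀ d ∈ univ \ S, cnt N m (insert d S) =
        ∑ e ∈ (univ : Finset (Fin N ≃ β)).filter (fun e => S ⊆ fst m e),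
          if d ∈ fst m e then 1 else 0 := by
      intro d _
      rw [cnt, ← card_filter, filter_filter]
      congr 1
      apply filter_congr
      intro e _
      rw [insert_subset_iff, and_comm]
    rw [sum_congr rfl h3, sum_comm]
    refine sum_congr rfl fun e he => ?_
    rw [mem_filter] at he
    rw [← card_filter]
    have h4 : (univ \ S).filter (fun d => d ∈ fst m e) = fst m e \ S := by
      ext d
      simp only [mem_filter, mem_sdiff, mem_univ, true_and]
      tauto
    rw [h4, card_sdiff_of_subset he.2, card_fst hm]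
  rw [← h1, h2, sum_const, smul_eq_mul, mul_comm]
  rfl

/-- upper bound for the probability that all the elements of `S` are among the first `m` -/
theorem cnt_le (hN : Fintype.card β = N) {m : ℕ} (hm : m ≤ N) (S : Finset β) :
    (cnt N m S : ℝ) ≤ ((m : ℝ) / N) ^ S.card * Fintype.card (Fin N ≃ β) := by
  induction S using Finset.induction_on with
  | empty => simp [cnt_empty]
  | insert c S hc ih =>
    have h1 := cnt_rec hN hm hc
    have h2 : S.card < N := by
      have : (insert c S).card ≤ Fintype.card β := card_le_univ _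
      rw [card_insert_of_notMem hc, hN] at this
      omega
    have hN0 : (0 : ℝ) < N := by
      have : 0 < N := by omega
      exact_mod_cast this
    have h3 : ((N : ℝ) - S.card) * cnt N m (insert c S) ≤ ((m : ℝ) - S.card) * cnt N m S := by
      rcases le_or_gt S.card m with h | h
      · have h4 : (((N - S.card) * cnt N m (insert c S) : ℕ) : ℝ) =
          (((m - S.card) * cnt N m S : ℕ) : ℝ) := by rw [h1]
        push_cast [Nat.cast_sub h2.le, Nat.cast_sub h] at h4
        exact h4.le
      · -- then both counts vanish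
        have h5 : cnt N m S = 0 := by
          unfold cnt
          rw [card_eq_zero, filter_eq_empty_iff]
          intro e _ he
          have := card_le_card he
          rw [card_fst hm] at this
          omega
        have h6 : cnt N m (insert c S) = 0 := by
          have : m - S.card = 0 := by omega
          rw [this, zero_mul] at h1
          rcases Nat.mul_eq_zero.1 h1 with h7 | h7
          · omega
          · exact h7
        rw [h5, h6]
        simp
    have h4 : (0 : ℝ) < (N : ℝ) - S.card := by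
      have : (S.card : ℝ) < N := by exact_mod_cast h2
      linarith
    rw [card_insert_of_notMem hc, pow_succ]
    have h5 : (0 : ℝ) ≤ cnt N m S := Nat.cast_nonneg _
    have h6 : ((m : ℝ) - S.card) ≤ m / N * (N - S.card) := by
      have h7 : (m : ℝ) ≤ N := by exact_mod_cast hm
      have h8 : (m : ℝ) / N ≤ 1 := by rw [div_le_one hN0]; exact h7
      have h9 : (m : ℝ) / N * N = m := by field_simp
      have h10 : (0 : ℝ) ≤ S.card := Nat.cast_nonneg _
      nlinarith
    have h7 : (cnt N m (insert c S) : ℝ) ≤ m / N * cnt N m S := by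
      have h8 : ((N : ℝ) - S.card) * cnt N m (insert c S) ≤
          ((N : ℝ) - S.card) * (m / N * cnt N m S) := by
        refine h3.trans ?_
        calc ((m : ℝ) - S.card) * cnt N m S ≤ (m / N * (N - S.card)) * cnt N m S :=
              mul_le_mul_of_nonneg_right h6 h5
          _ = _ := by ring
      exact le_of_mul_le_mul_left h8 h4
    calc (cnt N m (insert c S) : ℝ) ≤ m / N * cnt N m S := h7
      _ ≤ m / N * (((m : ℝ) / N) ^ S.card * Fintype.card (Fin N ≃ β)) :=
          mul_le_mul_of_nonneg_left ih (by positivity)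
      _ = _ := by ring

/-- lower bound -/
theorem le_cnt (hN : Fintype.card β = N) {m : ℕ} (hm : m ≤ N) {J : ℕ} (hJ : J ≤ m)
    (S : Finset β) (hS : S.card ≤ J) :
    (((m : ℝ) - J) / N) ^ S.card * Fintype.card (Fin N ≃ β) ≤ cnt N m S := by
  induction S using Finset.induction_on with
  | empty => simp [cnt_empty]
  | insert c S hc ih =>
    rw [card_insert_of_notMem hc] at hS
    have ih' := ih (by omega)
    have h1 := cnt_rec hN hm hc
    have h2 : S.card < N := by omega
    have hN0 : (0 : ℝ) < N := by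
      have : 0 < N := by omega
      exact_mod_cast this
    have h4 : (((N - S.card) * cnt N m (insert c S) : ℕ) : ℝ) =
      (((m - S.card) * cnt N m S : ℕ) : ℝ) := by rw [h1]
    push_cast [Nat.cast_sub h2.le, Nat.cast_sub (show S.card ≤ m by omega)] at h4
    have h5 : (0 : ℝ) ≤ cnt N m S := Nat.cast_nonneg _
    have h6 : (0 : ℝ) ≤ cnt N m (insert c S) := Nat.cast_nonneg _
    have h7 : (0 : ℝ) ≤ S.card := Nat.cast_nonneg _
    have h8 : (S.card : ℝ) + 1 ≤ J := by exact_mod_cast hS
    have h9 : (J : ℝ) ≤ m := by exact_mod_cast hJ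
    rw [card_insert_of_notMem hc, pow_succ]
    have h10 : ((m : ℝ) - J) * cnt N m S ≤ N * cnt N m (insert c S) := by nlinarith
    have h11 : ((m : ℝ) - J) / N * cnt N m S ≤ cnt N m (insert c S) := by
      rw [div_mul_eq_mul_div, div_le_iff₀ hN0]
      linarith
    refine le_trans ?_ h11
    have h12 : 0 ≤ ((m : ℝ) - J) / N := div_nonneg (by linarith) hN0.le
    calc _ = ((m : ℝ) - J) / N * ((((m : ℝ) - J) / N) ^ S.card * Fintype.card (Fin N ≃ β)) := by ring
      _ ≤ _ := mul_le_mul_of_nonneg_left ih' h12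

/-- first moment bound -/
theorem first_moment (hN : Fintype.card β = N) {m : ℕ} (hm : m ≤ N) {ι : Type*} (I : Finset ι)
    (S : ι → Finset β) (j : ℕ) (hS : ∀ i ∈ I, (S i).card = j) :
    (((univ : Finset (Fin N ≃ β)).filter fun e => ∃ i ∈ I, S i ⊆ fst m e).card : ℝ) ≤
      I.card * ((m : ℝ) / N) ^ j * Fintype.card (Fin N ≃ β) := by
  have h1 : ((univ : Finset (Fin N ≃ β)).filter fun e => ∃ i ∈ I, S i ⊆ fst m e).card ≤
      ∑ i ∈ I, cnt N m (S i) := by
    refine le_trans (card_le_card ?_) card_biUnion_le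
    intro e he
    rw [mem_filter] at he
    obtain ⟨_, i, hi, h⟩ := he
    exact mem_biUnion.2 ⟨i, hi, by simp [h]⟩
  calc (((univ : Finset (Fin N ≃ β)).filter fun e => ∃ i ∈ I, S i ⊆ fst m e).card : ℝ)
      ≤ ((∑ i ∈ I, cnt N m (S i) : ℕ) : ℝ) := by exact_mod_cast h1
    _ = ∑ i ∈ I, (cnt N m (S i) : ℝ) := by push_cast; rfl
    _ ≤ ∑ i ∈ I, ((m : ℝ) / N) ^ j * Fintype.card (Fin N ≃ β) := by
        refine sum_le_sum fun i hi => ?_
        rw [← hS i hi]
        exact cnt_le hN hm _
    _ = _ := by rw [sum_const, nsmul_eq_mul]; ring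

/-- second moment bound -/
theorem second_moment (hN : Fintype.card β = N) {m : ℕ} (hm : m ≤ N) {ι : Type*} (I : Finset ι)
    (S : ι → Finset β) {C q : ℝ} (hC : 0 < C) (hq : (m : ℝ) / N = q)
    (hlow : ∀ i ∈ I, q ^ (S i).card / 2 * Fintype.card (Fin N ≃ β) ≤ cnt N m (S i))
    (hpair : ∀ i ∈ I, ∑ j ∈ I, q ^ (S j \ S i).card ≤ C) :
    (∑ i ∈ I, q ^ (S i).card) / (4 * C) * Fintype.card (Fin N ≃ β) ≤
      (((univ : Finset (Fin N ≃ β)).filter fun e => ∃ i ∈ I, S i ⊆ fst m e).card : ℝ) := by
  classical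
  set Z : ℝ := (Fintype.card (Fin N ≃ β) : ℝ) with hZ
  set Q : ℝ := ∑ i ∈ I, q ^ (S i).card with hQ
  have hq0 : 0 ≤ q := by rw [← hq]; positivity
  have hQ0 : 0 ≤ Q := sum_nonneg fun i _ => pow_nonneg hq0 _
  have hZ0 : 0 ≤ Z := Nat.cast_nonneg _
  set G := (univ : Finset (Fin N ≃ β)).filter fun e => ∃ i ∈ I, S i ⊆ fst m e with hG
  let X : (Fin N ≃ β) → ℝ := fun e => ∑ i ∈ I, if S i ⊆ fst m e then 1 else 0
  have h1 : ∑ e, X e = ∑ i ∈ I, (cnt N m (S i) : ℝ) := by
    simp only [X]
    rw [sum_comm]
    refine sum_congr rfl fun i _ => ?_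
    rw [cnt, sum_boole]
  have h2 : ∑ e, X e ^ 2 ≤ Q * C * Z := by
    have h3 : ∀ e, X e ^ 2 = ∑ i ∈ I, ∑ j ∈ I, if S i ∪ S j ⊆ fst m e then (1 : ℝ) else 0 := by
      intro e
      simp only [X, sq, sum_mul_sum]
      refine sum_congr rfl fun i _ => sum_congr rfl fun j _ => ?_
      by_cases h1 : S i ⊆ fst m e <;> by_cases h2 : S j ⊆ fst m e <;> simp [h1, h2, union_subset_iff]
    simp_rw [h3]
    rw [sum_comm]
    calc ∑ i ∈ I, ∑ e : Fin N ≃ β, ∑ j ∈ I, (if S i ∪ S j ⊆ fst m e then (1 : ℝ) else 0)
        = ∑ i ∈ I, ∑ j ∈ I, (cnt N m (S i ∪ S j) : ℝ) := by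
          refine sum_congr rfl fun i _ => ?_
          rw [sum_comm]
          refine sum_congr rfl fun j _ => ?_
          rw [cnt, sum_boole]
      _ ≤ ∑ i ∈ I, ∑ j ∈ I, q ^ (S i).card * q ^ (S j \ S i).card * Z := by
          refine sum_le_sum fun i _ => sum_le_sum fun j _ => ?_
          have h4 := cnt_le hN hm (S i ∪ S j)
          rw [← union_sdiff_self_eq_union, card_union_of_disjoint disjoint_sdiff,
            union_sdiff_self_eq_union, hq, pow_add] at h4
          exact h4
      _ = ∑ i ∈ I, q ^ (S i).card * (∑ j ∈ I, q ^ (S j \ S i).card) * Z := by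
          refine sum_congr rfl fun i _ => ?_
          rw [mul_sum, sum_mul]
      _ ≤ ∑ i ∈ I, q ^ (S i).card * C * Z := by
          refine sum_le_sum fun i hi => ?_
          apply mul_le_mul_of_nonneg_right _ hZ0
          exact mul_le_mul_of_nonneg_left (hpair i hi) (pow_nonneg hq0 _)
      _ = Q * C * Z := by rw [hQ, sum_mul, sum_mul]
  have h3 : Q / 2 * Z ≤ ∑ e, X e := by
    rw [h1]
    calc Q / 2 * Z = ∑ i ∈ I, q ^ (S i).card / 2 * Z := by rw [hQ, sum_div, sum_mul]
      _ ≤ _ := sum_le_sum hlow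
  have h4 : (∑ e, X e) ^ 2 ≤ (G.card : ℝ) * ∑ e, X e ^ 2 := by
    have h5 : ∑ e, X e = ∑ e ∈ G, X e := by
      symm
      apply sum_subset (subset_univ _)
      intro e _ he
      simp only [X]
      apply sum_eq_zero
      intro i hi
      rw [if_neg]
      intro h
      apply he
      simp only [hG, mem_filter, mem_univ, true_and]
      exact ⟨i, hi, h⟩
    rw [h5]
    refine (sq_sum_le_card_mul_sum_sq).trans ?_
    apply mul_le_mul_of_nonneg_left _ (Nat.cast_nonneg _)
    exact sum_le_sum_of_subset_of_nonneg (subset_univ _) fun e _ _ => sq_nonneg _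
  have h5 : (Q / 2 * Z) ^ 2 ≤ (G.card : ℝ) * (Q * C * Z) := by
    calc (Q / 2 * Z) ^ 2 ≤ (∑ e, X e) ^ 2 := pow_le_pow_left₀ (by positivity) h3 2
      _ ≤ _ := h4
      _ ≤ _ := mul_le_mul_of_nonneg_left h2 (Nat.cast_nonneg _)
  rcases eq_or_lt_of_le (mul_nonneg hQ0 hZ0) with h6 | h6
  · have : Q / (4 * C) * Z = 0 := by
      rw [div_mul_eq_mul_div, ← h6, zero_div]
    rw [this]
    positivity
  · rw [div_mul_eq_mul_div, div_le_iff₀ (by positivity)]
    have h7 : (Q * Z) * (Q * Z) ≤ (Q * Z) * ((G.card : ℝ) * (4 * C)) := by nlinarith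
    exact le_of_mul_le_mul_left h7 h6

end Pool.Agent.U147.Sat
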