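import Pool.Agent.U147.Sat.Dumb
import Pool.Agent.U147.Sat.Ord

/-!
# Sums over all dumbbells
-/

set_option autoImplicit false

open Finset

namespace Pool.Agent.U147.Sat

section path

variable {α : Type*} [Fintype α] [DecidableEq α]

/-- sums over sequences are matrix powers -/
theorem fin_path (B : Matrix α α ℝ) (a : ℕ) (G : α → α → ℝ) :
    ∑ f : Fin (a + 1) → α, G (f 0) (f (Fin.last a)) *
      ∏ i : Fin a, B (f i.castSucc) (f i.succ) = ∑ s, ∑ t, G s t * (B ^ a) s t := by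
  induction a generalizing G with
  | zero =>
    rw [← (Equiv.funUnique (Fin 1) α).symm.sum_comp]
    refine sum_congr rfl fun s _ => ?_
    simp [Matrix.one_apply]
  | succ a ih =>
    rw [← (Fin.consEquiv (fun _ : Fin (a + 2) => α)).sum_comp, Fintype.sum_prod_type]
    have h1 : ∀ (s : α) (f : Fin (a + 1) → α),
        G ((Fin.consEquiv (fun _ : Fin (a + 2) => α)) (s, f) 0)
          ((Fin.consEquiv (fun _ : Fin (a + 2) => α)) (s, f) (Fin.last (a + 1))) *
          ∏ i : Fin (a + 1), B ((Fin.consEquiv (fun _ : Fin (a + 2) => α)) (s, f) i.castSucc)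
            ((Fin.consEquiv (fun _ : Fin (a + 2) => α)) (s, f) i.succ) =
        (G s (f (Fin.last a)) * B s (f 0)) * ∏ i : Fin a, B (f i.castSucc) (f i.succ) := by
      intro s f
      rw [Fin.prod_univ_succ]
      have e1 : (Fin.consEquiv (fun _ : Fin (a + 2) => α)) (s, f) 0 = s := rfl
      have e2 : (Fin.consEquiv (fun _ : Fin (a + 2) => α)) (s, f) (Fin.last (a + 1)) =
          f (Fin.last a) := rfl
      have e3 : (Fin.consEquiv (fun _ : Fin (a + 2) => α)) (s, f) (Fin.castSucc 0) = s := rfl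
      have e4 : (Fin.consEquiv (fun _ : Fin (a + 2) => α)) (s, f) (Fin.succ 0) = f 0 := rfl
      rw [e1, e2, e3, e4, ← mul_assoc]
      congr 1
    simp_rw [h1]
    have h2 : ∀ s : α, ∑ f : Fin (a + 1) → α, (G s (f (Fin.last a)) * B s (f 0)) *
        ∏ i : Fin a, B (f i.castSucc) (f i.succ) =
        ∑ s', ∑ t, (G s t * B s s') * (B ^ a) s' t :=
      fun s => ih (fun s' t => G s t * B s s')
    simp_rw [h2]
    refine sum_congr rfl fun s _ => ?_
    rw [sum_comm]
    refine sum_congr rfl fun t _ => ?_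
    rw [pow_succ', Matrix.mul_apply, mul_sum]
    refine sum_congr rfl fun s' _ => ?_
    ring

/-- weight of a path with given end points -/
def om (B : Matrix α α ℝ) (a : ℕ) (u v : α) (f : Fin (a + 1) → α) : ℝ :=
  B u (f 0) * (∏ i : Fin a, B (f i.castSucc) (f i.succ)) * B (f (Fin.last a)) v

theorem sum_om (B : Matrix α α ℝ) (a : ℕ) (u v : α) :
    ∑ f : Fin (a + 1) → α, om B a u v f = (B ^ (a + 2)) u v := by
  have h1 := fin_path B a (fun s t => B u s * B t v)
  have h2 : ∀ f : Fin (a + 1) → α, om B a u v f =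
      (B u (f 0) * B (f (Fin.last a)) v) * ∏ i : Fin a, B (f i.castSucc) (f i.succ) := by
    intro f
    unfold om
    ring
  simp_rw [h2]
  rw [h1]
  have h3 : (B ^ (a + 2)) u v = ∑ t, (∑ s, B u s * (B ^ a) s t) * B t v := by
    rw [pow_succ, Matrix.mul_apply]
    simp_rw [pow_succ', Matrix.mul_apply]
  rw [h3, sum_comm]
  refine sum_congr rfl fun t _ => ?_
  rw [sum_mul]
  refine sum_congr rfl fun s _ => ?_
  ring

theorem sum_om_rc (nga : α → α) (B : Matrix α α ℝ) (a : ℕ) (u : α) :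
    ∑ f : Fin (a + 1) → α, (if f 0 = nga (f (Fin.last a)) then 0 else om B a u (nga u) f) =
      rc nga B a u := by
  have h1 := fin_path B a (fun s t => if s = nga t then 0 else B u s * B t (nga u))
  have h2 : ∀ f : Fin (a + 1) → α,
      (if f 0 = nga (f (Fin.last a)) then 0 else om B a u (nga u) f) =
      (if f 0 = nga (f (Fin.last a)) then 0 else B u (f 0) * B (f (Fin.last a)) (nga u)) *
        ∏ i : Fin a, B (f i.castSucc) (f i.succ) := by
    intro f
    unfold om
    split_ifs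
    · rw [zero_mul]
    · ring
  simp_rw [h2]
  rw [h1]
  unfold rc
  refine sum_congr rfl fun s _ => sum_congr rfl fun t _ => ?_
  split_ifs
  · rw [zero_mul]
  · ring

theorem prod_om (B : Matrix α α ℝ) (a : ℕ) (X : ℕ → α) :
    ∏ l ∈ range (a + 2), B (X l) (X (l + 1)) =
      om B a (X 0) (X (a + 2)) (fun i => X (i + 1)) := by
  unfold om
  rw [prod_range_succ, prod_range_succ', prod_range]
  have e1 : ∀ i : Fin a, X ((i : ℕ) + 1) = X (((i.castSucc : Fin (a + 1)) : ℕ) + 1) := fun i => rfl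
  have e2 : ∀ i : Fin a, X ((i : ℕ) + 1 + 1) = X (((i.succ : Fin (a + 1)) : ℕ) + 1) := by
    intro i
    rw [Fin.val_succ]
  rw [mul_comm (∏ i : Fin a, B (X ((i : ℕ) + 1)) (X ((i : ℕ) + 1 + 1)))]
  simp only [Fin.val_zero, Fin.val_last, zero_add, Fin.val_castSucc, Fin.val_succ]

end path

variable {n : ℕ}

/-- extension of a finite sequence -/
def ex {v : ℕ} (p : Fin (v + 1) → Lit n) (i : ℕ) : Lit n :=
  if h : i < v + 1 then p ⟨i, h⟩ else p 0

theorem ex_apply {v : ℕ} (p : Fin (v + 1) → Lit n) {i : ℕ} (h : i < v + 1) :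
    ex p i = p ⟨i, h⟩ := dif_pos h

/-- good sequences -/
def Gd {v : ℕ} (p : Fin v → Lit n) : Prop := Function.Injective fun i => (p i).1

instance {v : ℕ} : DecidablePred (Gd (n := n) (v := v)) := fun p => by
  unfold Gd Function.Injective; infer_instance

theorem ex_inj {v : ℕ} {p : Fin (v + 1) → Lit n} (hp : Gd p) (i j : ℕ) (hi : i < v + 1)
    (hj : j < v + 1) (h : (ex p i).1 = (ex p j).1) : i = j := by
  rw [ex_apply p hi, ex_apply p hj] at h
  have := hp h
  simpa using this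

/-- number of good sequences -/
theorem card_good (v : ℕ) : (2 * (n + 1 - v)) ^ v ≤
    ((univ : Finset (Fin v → Lit n)).filter Gd).card := by
  have h1 : ((univ : Finset ((Fin v ↪ Fin n) × (Fin v → Bool))).image
      (fun x i => ((x.1 i, x.2 i) : Lit n))).card = n.descFactorial v * 2 ^ v := by
    rw [card_image_of_injective, card_univ, Fintype.card_prod, Fintype.card_embedding_eq,
      Fintype.card_fin, Fintype.card_fin, Fintype.card_fun, Fintype.card_bool, Fintype.card_fin]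
    intro x y h
    have h2 : ∀ i, x.1 i = y.1 i ∧ x.2 i = y.2 i := by
      intro i
      have := congrFun h i
      simpa using this
    apply Prod.ext
    · ext i
      rw [(h2 i).1]
    · ext i
      rw [(h2 i).2]
  rw [mul_pow, mul_comm]
  calc (n + 1 - v) ^ v * 2 ^ v ≤ n.descFactorial v * 2 ^ v :=
        Nat.mul_le_mul_right _ (Nat.pow_sub_le_descFactorial n v)
    _ = _ := h1.symm
    _ ≤ _ := by
        apply card_le_card
        intro p hp
        rw [mem_image] at hp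
        obtain ⟨x, _, rfl⟩ := hp
        rw [mem_filter]
        refine ⟨mem_univ _, ?_⟩
        intro i j h
        exact x.1.injective h

/-- the clause set of a sequence -/
def sset (a b c : ℕ) (p : Fin (a + b + c + 5) → Lit n) : Finset (Finset (Lit n)) :=
  ds (ex (v := a + b + c + 4) p) (a + 1) (b + 1) (c + 1)

theorem hP_of {a b c : ℕ} {p : Fin (a + b + c + 5) → Lit n} (hp : Gd p) :
    ∀ i j, i < (a + 1) + (b + 1) + (c + 1) + 2 → j < (a + 1) + (b + 1) + (c + 1) + 2 →
      (ex (v := a + b + c + 4) p i).1 = (ex (v := a + b + c + 4) p j).1 → i = j :=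
  fun i j hi hj h => ex_inj (v := a + b + c + 4) hp i j (by omega) (by omega) h

theorem sset_card {a b c : ℕ} {p : Fin (a + b + c + 5) → Lit n} (hp : Gd p) :
    (sset a b c p).card = a + b + c + 6 := by
  unfold sset
  rw [ds_card (hP_of hp) (by omega) (by omega)]
  omega

theorem sset_isCl {a b c : ℕ} {p : Fin (a + b + c + 5) → Lit n} (hp : Gd p) :
    ∀ C ∈ sset a b c p, IsCl C := ds_isCl (hP_of hp) (by omega) (by omega)

/-- the map to segments -/
def seg (a b c : ℕ) (p : Fin (a + b + c + 5) → Lit n) :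
    Lit n × Lit n × (Fin (a + 1) → Lit n) × (Fin (c + 1) → Lit n) × (Fin (b + 1) → Lit n) :=
  (dw (ex (v := a + b + c + 4) p) (a + 1) (b + 1) (c + 1) 0,
   dw (ex (v := a + b + c + 4) p) (a + 1) (b + 1) (c + 1) (a + 2 + (c + 2)),
   fun i => dw (ex (v := a + b + c + 4) p) (a + 1) (b + 1) (c + 1) (i + 1),
   fun i => dw (ex (v := a + b + c + 4) p) (a + 1) (b + 1) (c + 1) (a + 2 + (i + 1)),
   fun i => dw (ex (v := a + b + c + 4) p) (a + 1) (b + 1) (c + 1) (a + 2 + (c + 2) + (i + 1)))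

theorem seg_inj (a b c : ℕ) : Function.Injective (seg (n := n) a b c) := by
  intro p p' h
  unfold seg at h
  simp only [Prod.mk.injEq] at h
  obtain ⟨h1, h2, h3, h4, h5⟩ := h
  have key : ∀ i, i < a + b + c + 6 → i ≠ a + 2 →
      dw (ex (v := a + b + c + 4) p) (a + 1) (b + 1) (c + 1) i =
      dw (ex (v := a + b + c + 4) p') (a + 1) (b + 1) (c + 1) i := by
    intro i hi hne
    rcases Nat.eq_zero_or_pos i with h0 | h0
    · rw [h0]; exact h1
    · by_cases c1 : i ≤ a + 1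
      · have := congrFun h3 ⟨i - 1, by omega⟩
        have e : i - 1 + 1 = i := by omega
        simp only [e] at this
        exact this
      · by_cases c2 : i < a + 2 + (c + 2)
        · have := congrFun h4 ⟨i - (a + 2) - 1, by omega⟩
          have e : a + 2 + (i - (a + 2) - 1 + 1) = i := by omega
          simp only [e] at this
          exact this
        · by_cases c3 : i = a + 2 + (c + 2)
          · rw [c3]; exact h2
          · have := congrFun h5 ⟨i - (a + 2 + (c + 2)) - 1, by omega⟩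
            have e : a + 2 + (c + 2) + (i - (a + 2 + (c + 2)) - 1 + 1) = i := by omega
            simp only [e] at this
            exact this
  funext ⟨i, hi⟩
  have e1 : p ⟨i, hi⟩ = ex (v := a + b + c + 4) p i := (ex_apply (v := a + b + c + 4) p hi).symm
  have e2 : p' ⟨i, hi⟩ = ex (v := a + b + c + 4) p' i :=
    (ex_apply (v := a + b + c + 4) p' hi).symm
  rw [e1, e2]
  by_cases c1 : i ≤ a + 1
  · have := key i (by omega) (by omega)
    unfold dw at this
    rw [if_pos c1, if_pos c1] at this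
    exact this
  · have := key (i + 1) (by omega) (by omega)
    unfold dw at this
    rw [if_neg (by omega), if_neg (by omega), if_pos (by omega), if_neg (by omega),
      if_neg (by omega), if_pos (by omega)] at this
    exact this

/-- the weight of a tuple of segments -/
def wt (B : Matrix (Lit n) (Lit n) ℝ) (a b c : ℕ)
    (x : Lit n × Lit n × (Fin (a + 1) → Lit n) × (Fin (c + 1) → Lit n) × (Fin (b + 1) → Lit n)) :
    ℝ :=
  (if x.2.2.1 0 = ng (x.2.2.1 (Fin.last a)) then 0 else om B a x.1 (ng x.1) x.2.2.1) *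
  om B c (ng x.1) x.2.1 x.2.2.2.1 *
  (if x.2.2.2.2 0 = ng (x.2.2.2.2 (Fin.last b)) then 0 else om B b x.2.1 (ng x.2.1) x.2.2.2.2)

theorem om_nonneg {B : Matrix (Lit n) (Lit n) ℝ} (hB : ∀ u v, 0 ≤ B u v) (a : ℕ) (u v : Lit n)
    (f : Fin (a + 1) → Lit n) : 0 ≤ om B a u v f :=
  mul_nonneg (mul_nonneg (hB _ _) (prod_nonneg fun _ _ => hB _ _)) (hB _ _)

theorem wt_nonneg {B : Matrix (Lit n) (Lit n) ℝ} (hB : ∀ u v, 0 ≤ B u v) (a b c : ℕ)
    (x : Lit n × Lit n × (Fin (a + 1) → Lit n) × (Fin (c + 1) → Lit n) ×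
      (Fin (b + 1) → Lit n)) : 0 ≤ wt B a b c x := by
  unfold wt
  refine mul_nonneg (mul_nonneg ?_ (om_nonneg hB _ _ _ _)) ?_
  · split_ifs
    · exact le_rfl
    · exact om_nonneg hB _ _ _ _
  · split_ifs
    · exact le_rfl
    · exact om_nonneg hB _ _ _ _

theorem sum_wt (B : Matrix (Lit n) (Lit n) ℝ) (a b c : ℕ) :
    ∑ x, wt B a b c x =
      ∑ u, ∑ v, rc ng B a u * (B ^ (c + 2)) (ng u) v * rc ng B b v := by
  rw [Fintype.sum_prod_type]
  refine sum_congr rfl fun u _ => ?_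
  rw [Fintype.sum_prod_type]
  refine sum_congr rfl fun v _ => ?_
  rw [Fintype.sum_prod_type, ← sum_om_rc ng B a u, ← sum_om B c (ng u) v, ← sum_om_rc ng B b v,
    sum_mul_sum, sum_mul]
  refine sum_congr rfl fun f1 _ => ?_
  rw [Fintype.sum_prod_type, sum_mul]
  refine sum_congr rfl fun f2 _ => ?_
  rw [mul_sum]
  rfl

theorem prod_eq_wt (B : Matrix (Lit n) (Lit n) ℝ) {a b c : ℕ} {p : Fin (a + b + c + 5) → Lit n}
    (hp : Gd p) :
    ∏ l ∈ range (a + b + c + 6),
      B (dw (ex (v := a + b + c + 4) p) (a + 1) (b + 1) (c + 1) l)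
        (dw (ex (v := a + b + c + 4) p) (a + 1) (b + 1) (c + 1) (l + 1)) =
      wt B a b c (seg a b c p) := by
  set x := dw (ex (v := a + b + c + 4) p) (a + 1) (b + 1) (c + 1) with hx
  have e : a + b + c + 6 = (a + 2) + (c + 2) + (b + 2) := by omega
  rw [e, prod_range_add, prod_range_add]
  have p1 := prod_om B a x
  have p2 := prod_om B c (fun l => x (a + 2 + l))
  have p3 := prod_om B b (fun l => x (a + 2 + (c + 2) + l))
  have e1 : x (a + 2) = ng (x 0) := by
    have := dw_a1 (P := ex (v := a + b + c + 4) p) (a := a + 1) (b := b + 1) (c := c + 1)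
    exact this
  have e2 : x (a + 2 + (c + 2) + (b + 2)) = ng (x (a + 2 + (c + 2))) := by
    have := dw_L (P := ex (v := a + b + c + 4) p) (a := a + 1) (b := b + 1) (c := c + 1)
      (by omega)
    have e3 : a + 2 + (c + 2) + (b + 2) = a + 1 + (b + 1) + (c + 1) + 3 := by omega
    have e4 : a + 2 + (c + 2) = a + 1 + (c + 1) + 2 := by omega
    rw [e3, e4]
    exact this
  have n1 : ¬ (x 1 = ng (x (a + 1))) := by
    intro h
    have := dw_ng (hP_of hp) (by omega) (by omega) (by omega) (by omega) h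
    omega
  have n2 : ¬ (x (a + 2 + (c + 2) + 1) = ng (x (a + 2 + (c + 2) + (b + 1)))) := by
    intro h
    have := dw_ng (hP_of hp) (by omega) (by omega) (by omega) (by omega) h
    omega
  unfold wt seg
  simp only [← hx, Fin.val_zero, Fin.val_last, zero_add]
  rw [if_neg n1, if_neg n2]
  simp only [← add_assoc, add_zero] at p1 p2 p3 e1 e2 ⊢
  rw [p1, p2, p3, e1, e2]

/-- sum of the weights over good sequences -/
theorem sum_good_le {B : Matrix (Lit n) (Lit n) ℝ} (hB : ∀ u v, 0 ≤ B u v) (a b c : ℕ) :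
    ∑ p ∈ (univ : Finset (Fin (a + b + c + 5) → Lit n)).filter Gd,
      ∏ l ∈ range (a + b + c + 6),
        B (dw (ex (v := a + b + c + 4) p) (a + 1) (b + 1) (c + 1) l)
          (dw (ex (v := a + b + c + 4) p) (a + 1) (b + 1) (c + 1) (l + 1)) ≤
      ∑ u, ∑ v, rc ng B a u * (B ^ (c + 2)) (ng u) v * rc ng B b v := by
  classical
  rw [← sum_wt]
  calc ∑ p ∈ (univ : Finset (Fin (a + b + c + 5) → Lit n)).filter Gd,
      ∏ l ∈ range (a + b + c + 6),
        B (dw (ex (v := a + b + c + 4) p) (a + 1) (b + 1) (c + 1) l)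
          (dw (ex (v := a + b + c + 4) p) (a + 1) (b + 1) (c + 1) (l + 1))
      = ∑ p ∈ (univ : Finset (Fin (a + b + c + 5) → Lit n)).filter Gd,
          wt B a b c (seg a b c p) := by
        refine sum_congr rfl fun p hp => prod_eq_wt B (mem_filter.1 hp).2
    _ ≤ ∑ p : Fin (a + b + c + 5) → Lit n, wt B a b c (seg a b c p) :=
        sum_le_sum_of_subset_of_nonneg (filter_subset _ _) fun p _ _ => wt_nonneg hB _ _ _ _
    _ = ∑ x ∈ univ.image (seg (n := n) a b c), wt B a b c x := by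
        rw [sum_image]
        exact fun p _ p' _ h => seg_inj a b c h
    _ ≤ ∑ x, wt B a b c x :=
        sum_le_sum_of_subset_of_nonneg (subset_univ _) fun x _ _ => wt_nonneg hB _ _ _ _

/-- index type of dumbbells -/
abbrev Ix (n : ℕ) := Σ t : ℕ × ℕ × ℕ, (Fin (t.1 + t.2.1 + t.2.2 + 5) → Lit n)

/-- all dumbbells with the given size parameter -/
def II (n K : ℕ) : Finset (Ix n) :=
  ((Ico K (2 * K)) ×ˢ ((Ico K (2 * K)) ×ˢ (Ico K (2 * K)))).sigma fun _ => univ.filter Gd

/-- the clauses of an indexed dumbbell -/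
def SS (i : Ix n) : Finset (Cl n) := toCl (sset i.1.1 i.1.2.1 i.1.2.2 i.2)

theorem mem_II {K : ℕ} {i : Ix n} : i ∈ II n K ↔
    (K ≤ i.1.1 ∧ i.1.1 < 2 * K) ∧ (K ≤ i.1.2.1 ∧ i.1.2.1 < 2 * K) ∧
      (K ≤ i.1.2.2 ∧ i.1.2.2 < 2 * K) ∧ Gd i.2 := by
  unfold II
  rw [mem_sigma, mem_product, mem_product, mem_Ico, mem_Ico, mem_Ico, mem_filter]
  simp only [mem_univ, true_and]
  tauto

theorem SS_card {i : Ix n} (h : Gd i.2) :
    (SS i).card = i.1.1 + i.1.2.1 + i.1.2.2 + 6 := by
  unfold SS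
  rw [card_toCl (sset_isCl h), sset_card h]

/-- weight of a pair -/
theorem pair_weight {q : ℝ} (hq : 0 ≤ q) (i j : Ix n) (hj : Gd j.2) :
    q ^ (SS j \ SS i).card ≤
      ∏ l ∈ range (j.1.1 + j.1.2.1 + j.1.2.2 + 6),
        mq (dA (ex (v := i.1.1 + i.1.2.1 + i.1.2.2 + 4) i.2) (i.1.1 + 1) (i.1.2.1 + 1)
          (i.1.2.2 + 1)) q
          (dw (ex (v := j.1.1 + j.1.2.1 + j.1.2.2 + 4) j.2) (j.1.1 + 1) (j.1.2.1 + 1)
            (j.1.2.2 + 1) l)
          (dw (ex (v := j.1.1 + j.1.2.1 + j.1.2.2 + 4) j.2) (j.1.1 + 1) (j.1.2.1 + 1)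
            (j.1.2.2 + 1) (l + 1)) := by
  unfold SS
  rw [toCl_sdiff, card_toCl (fun C hC => sset_isCl hj C (mem_sdiff.1 hC).1)]
  set S := sset i.1.1 i.1.2.1 i.1.2.2 i.2 with hS
  set S' := sset j.1.1 j.1.2.1 j.1.2.2 j.2 with hS'
  set x := dw (ex (v := j.1.1 + j.1.2.1 + j.1.2.2 + 4) j.2) (j.1.1 + 1) (j.1.2.1 + 1)
            (j.1.2.2 + 1) with hx
  have h1 : q ^ (S' \ S).card = ∏ C ∈ S', if C ∈ S then 1 else q := by
    rw [prod_ite, prod_const_one, one_mul, prod_const]
    congr 2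
    ext C
    simp [mem_sdiff]
  have h2 : S' = (range (j.1.1 + j.1.2.1 + j.1.2.2 + 6)).image
      fun l => cs (x l) (x (l + 1)) := by
    rw [hS', hx]
    unfold sset ds
    congr 2
    omega
  have h3 : ∏ C ∈ S', (if C ∈ S then 1 else q) =
      ∏ l ∈ range (j.1.1 + j.1.2.1 + j.1.2.2 + 6), if cs (x l) (x (l + 1)) ∈ S then 1 else q := by
    rw [h2, prod_image]
    intro l hl l' hl' h
    rw [mem_coe, mem_range] at hl hl'
    exact ds_injOn (hP_of hj) (by omega) (by omega) (by omega) (by omega) h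
  rw [h1, h3]
  apply prod_le_prod
  · intro l _
    split_ifs
    · exact zero_le_one
    · exact hq
  · intro l _
    rw [mq_apply, dA_apply]
    have : S = ds (ex (v := i.1.1 + i.1.2.1 + i.1.2.2 + 4) i.2) (i.1.1 + 1) (i.1.2.1 + 1)
          (i.1.2.2 + 1) := rfl
    rw [← this]
    split_ifs
    · linarith
    · linarith

/-- the pair sums are bounded -/
theorem pair_sum {K : ℕ} (hK : 4 ≤ K) {q : ℝ} (hq : 0 ≤ q) (hq1 : q * (2 * n) ≤ 1)
    (hq2 : q * (2000 * (K : ℝ) ^ 3) ≤ 1) (i : Ix n) (hi : i ∈ II n K) :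
    ∑ j ∈ II n K, q ^ (SS j \ SS i).card ≤ 1200 := by
  rw [mem_II] at hi
  obtain ⟨hi1, hi2, hi3, hg⟩ := hi
  have H := dumb_hyp (hP_of hg) hK (by omega) (by omega) (by omega) (by omega) (by omega)
    (by omega : i.1.1 + 1 ≤ 2 * K) (by omega : i.1.2.1 + 1 ≤ 2 * K)
    (by omega : i.1.2.2 + 1 ≤ 2 * K)
  set A := dA (ex (v := i.1.1 + i.1.2.1 + i.1.2.2 + 4) i.2) (i.1.1 + 1) (i.1.2.1 + 1)
          (i.1.2.2 + 1) with hA
  have hcard : (Fintype.card (Lit n) : ℝ) = 2 * n := by
    rw [Fintype.card_prod, Fintype.card_fin, Fintype.card_bool]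
    push_cast
    ring
  have htot := H.total_le (q := q) hq (by rw [hcard]; exact hq1) (by omega) hq2
  calc ∑ j ∈ II n K, q ^ (SS j \ SS i).card
      ≤ ∑ j ∈ II n K, ∏ l ∈ range (j.1.1 + j.1.2.1 + j.1.2.2 + 6), mq A q
          (dw (ex (v := j.1.1 + j.1.2.1 + j.1.2.2 + 4) j.2) (j.1.1 + 1) (j.1.2.1 + 1)
            (j.1.2.2 + 1) l)
          (dw (ex (v := j.1.1 + j.1.2.1 + j.1.2.2 + 4) j.2) (j.1.1 + 1) (j.1.2.1 + 1)
            (j.1.2.2 + 1) (l + 1)) := by
        refine sum_le_sum fun j hj => pair_weight hq i j ?_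
        exact (mem_II.1 hj).2.2.2
    _ = ∑ t ∈ (Ico K (2 * K)) ×ˢ ((Ico K (2 * K)) ×ˢ (Ico K (2 * K))),
          ∑ p ∈ (univ : Finset (Fin (t.1 + t.2.1 + t.2.2 + 5) → Lit n)).filter Gd,
          ∏ l ∈ range (t.1 + t.2.1 + t.2.2 + 6), mq A q
          (dw (ex (v := t.1 + t.2.1 + t.2.2 + 4) p) (t.1 + 1) (t.2.1 + 1) (t.2.2 + 1) l)
          (dw (ex (v := t.1 + t.2.1 + t.2.2 + 4) p) (t.1 + 1) (t.2.1 + 1) (t.2.2 + 1)
            (l + 1)) := by
        unfold II
        rw [sum_sigma]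
    _ ≤ ∑ t ∈ (Ico K (2 * K)) ×ˢ ((Ico K (2 * K)) ×ˢ (Ico K (2 * K))),
          ∑ u, ∑ v, rc ng (mq A q) t.1 u * (mq A q ^ (t.2.2 + 2)) (ng u) v *
            rc ng (mq A q) t.2.1 v :=
        sum_le_sum fun t _ => sum_good_le (H.mq_nonneg hq) t.1 t.2.1 t.2.2
    _ = ∑ u, ∑ v, (∑ a ∈ Ico K (2 * K), rc ng (mq A q) a u) *
      (∑ a ∈ Ico K (2 * K), (mq A q ^ (a + 2)) (ng u) v) *
      (∑ a ∈ Ico K (2 * K), rc ng (mq A q) a v) := by
        rw [sum_comm]
        refine sum_congr rfl fun u _ => ?_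
        rw [sum_comm]
        refine sum_congr rfl fun v _ => ?_
        rw [sum_product, sum_mul_sum, sum_mul]
        refine sum_congr rfl fun a _ => ?_
        rw [sum_product_right, sum_mul]
        refine sum_congr rfl fun c _ => ?_
        rw [mul_sum]
    _ ≤ 1200 := htot

end Pool.Agent.U147.Sat
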