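import Pool.Agent.U147.Sat.Sum
import Pool.Agent.U147.Sat.Ear

/-!
# Uniquely satisfiable subformulas: structure and first moment
-/

set_option autoImplicit false

open Finset

namespace Pool.Agent.U147.Sat

variable {n : ℕ}

/-- predecessor in a cycle -/
def pd1 (k t : ℕ) : ℕ := if t = 0 then k - 1 else t - 1

/-- predecessor in a cycle with an ear -/
def pd2 (g i t : ℕ) : ℕ := if t = 0 then g - 1 else if t = g then i else t - 1

/-- edges of a cycle -/
def E1 (k : ℕ) : Finset (ℕ × ℕ) := (range k).image fun t => (pd1 k t, t)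

/-- edges of a cycle with two ears -/
def E2 (k g i h : ℕ) : Finset (ℕ × ℕ) :=
  insert (k - 1, h) ((range k).image fun t => (pd2 g i t, t))

theorem E1_card (k : ℕ) : (E1 k).card = k := by
  unfold E1
  rw [card_image_of_injective _ (fun s t h => (Prod.mk.inj h).2), card_range]

theorem E2_card {k g i h w : ℕ} (hg : 2 ≤ g) (hgw : g ≤ w) (hwk : w < k) (hi : i < g)
    (hh : h < w) : (E2 k g i h).card = k + 1 := by
  unfold E2
  rw [card_insert_of_notMem,
    card_image_of_injective _ (fun s t h => (Prod.mk.inj h).2), card_range]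
  intro h1
  rw [mem_image] at h1
  obtain ⟨t, ht, h2⟩ := h1
  rw [mem_range] at ht
  rw [Prod.mk.injEq] at h2
  obtain ⟨h2, rfl⟩ := h2
  unfold pd2 at h2
  by_cases c1 : t = 0
  · rw [if_pos c1] at h2
    omega
  · rw [if_neg c1] at h2
    by_cases c2 : t = g
    · rw [if_pos c2] at h2
      omega
    · rw [if_neg c2] at h2
      omega

theorem E1_mem {k : ℕ} (hk : 2 ≤ k) {st : ℕ × ℕ} (h : st ∈ E1 k) :
    st.1 < k ∧ st.2 < k ∧ st.1 ≠ st.2 := by
  unfold E1 at h
  rw [mem_image] at h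
  obtain ⟨t, ht, rfl⟩ := h
  rw [mem_range] at ht
  unfold pd1
  by_cases c1 : t = 0
  · simp only [if_pos c1]
    omega
  · simp only [if_neg c1]
    omega

theorem E2_mem {k g i h w : ℕ} (hg : 2 ≤ g) (hgw : g ≤ w) (hwk : w < k) (hi : i < g)
    (hh : h < w) {st : ℕ × ℕ} (hst : st ∈ E2 k g i h) :
    st.1 < k ∧ st.2 < k ∧ st.1 ≠ st.2 := by
  unfold E2 at hst
  rw [mem_insert, mem_image] at hst
  rcases hst with rfl | ⟨t, ht, rfl⟩
  · simp only
    omega
  · rw [mem_range] at ht
    unfold pd2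
    by_cases c1 : t = 0
    · simp only [if_pos c1]
      omega
    · simp only [if_neg c1]
      by_cases c2 : t = g
      · simp only [if_pos c2]
        omega
      · simp only [if_neg c2]
        omega

/-- the clauses of a template -/
def tset (E : Finset (ℕ × ℕ)) (w : ℕ) (x : ℕ → Lit n) : Finset (Finset (Lit n)) :=
  insert {x 0, x w} (E.image fun st => cs (x st.1) (x st.2))

theorem tset_isCl {E : Finset (ℕ × ℕ)} {w k : ℕ} {x : ℕ → Lit n}
    (hx : ∀ s t, s < k → t < k → (x s).1 = (x t).1 → s = t) (hw0 : 0 < w) (hwk : w < k)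
    (hE : ∀ st ∈ E, st.1 < k ∧ st.2 < k ∧ st.1 ≠ st.2) : ∀ C ∈ tset E w x, IsCl C := by
  intro C hC
  unfold tset at hC
  rw [mem_insert, mem_image] at hC
  rcases hC with rfl | ⟨st, hst, rfl⟩
  · apply isCl_pair
    intro h
    have := hx 0 w (by omega) hwk h
    omega
  · obtain ⟨h1, h2, h3⟩ := hE st hst
    exact isCl_cs fun h => h3 (hx _ _ h1 h2 h)

theorem tset_card {E : Finset (ℕ × ℕ)} {w k : ℕ} {x : ℕ → Lit n}
    (hx : ∀ s t, s < k → t < k → (x s).1 = (x t).1 → s = t) (hw0 : 0 < w) (hwk : w < k)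
    (hE : ∀ st ∈ E, st.1 < k ∧ st.2 < k ∧ st.1 ≠ st.2) : (tset E w x).card = E.card + 1 := by
  unfold tset
  rw [card_insert_of_notMem, card_image_of_injOn]
  · intro st hst st' hst' h
    obtain ⟨h1, h2, h3⟩ := hE st hst
    obtain ⟨h1', h2', h3'⟩ := hE st' hst'
    simp only [cs_eq_iff] at h
    rcases h with ⟨h4, h5⟩ | ⟨h4, h5⟩
    · apply Prod.ext
      · exact hx _ _ h1 h1' (by rw [h4])
      · exact hx _ _ h2 h2' (by rw [h5])
    · have e1 := hx _ _ h1 h2' (by rw [h4]; rfl)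
      rw [e1] at h4
      exact absurd h4.symm (ng_ne _)
  · intro h
    rw [mem_image] at h
    obtain ⟨st, hst, h⟩ := h
    obtain ⟨h1, h2, h3⟩ := hE st hst
    have h4 : ng (x st.1) ∈ ({x 0, x w} : Finset (Lit n)) := by
      rw [← h]
      simp [cs]
    rw [mem_insert, mem_singleton] at h4
    rcases h4 with h4 | h4
    · have e1 := hx st.1 0 h1 (by omega) (by rw [← h4]; rfl)
      rw [e1] at h4
      exact absurd h4 (ng_ne _)
    · have e1 := hx st.1 w h1 hwk (by rw [← h4]; rfl)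
      rw [e1] at h4
      exact absurd h4 (ng_ne _)

/-- union bound -/
theorem card_exists_le {ε ι : Type*} [Fintype ε] [DecidableEq ε] (I : Finset ι)
    (P : ι → ε → Prop) [∀ i, DecidablePred (P i)] [DecidablePred fun e => ∃ i ∈ I, P i e] :
    ((univ : Finset ε).filter fun e => ∃ i ∈ I, P i e).card ≤
      ∑ i ∈ I, ((univ : Finset ε).filter (P i)).card := by
  refine le_trans (card_le_card ?_) card_biUnion_le
  intro e he
  rw [mem_filter] at he
  obtain ⟨_, i, hi, h⟩ := he
  exact mem_biUnion.2 ⟨i, hi, by simp [h]⟩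

/-- first moment bound for a template -/
theorem template_bound {N m : ℕ} (hN : Fintype.card (Cl n) = N) (hm : m ≤ N)
    {E : Finset (ℕ × ℕ)} {w v : ℕ} (hw0 : 0 < w) (hwk : w < v + 1)
    (hE : ∀ st ∈ E, st.1 < v + 1 ∧ st.2 < v + 1 ∧ st.1 ≠ st.2) :
    (((univ : Finset (Fin N ≃ Cl n)).filter fun e =>
      ∃ p ∈ (univ : Finset (Fin (v + 1) → Lit n)).filter Gd,
        toCl (tset E w (ex p)) ⊆ fst m e).card : ℝ) ≤
      (2 * n) ^ (v + 1) * ((m : ℝ) / N) ^ (E.card + 1) * Fintype.card (Fin N ≃ Cl n) := by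
  have h1 := first_moment hN hm ((univ : Finset (Fin (v + 1) → Lit n)).filter Gd)
    (fun p => toCl (tset E w (ex p))) (E.card + 1) (by
      intro p hp
      have hp' := (mem_filter.1 hp).2
      have hx : ∀ s t, s < v + 1 → t < v + 1 → (ex p s).1 = (ex p t).1 → s = t :=
        fun s t hs ht h => ex_inj hp' s t hs ht h
      rw [card_toCl (tset_isCl hx hw0 hwk hE), tset_card hx hw0 hwk hE])
  refine h1.trans ?_
  apply mul_le_mul_of_nonneg_right _ (Nat.cast_nonneg _)
  apply mul_le_mul_of_nonneg_right _ (by positivity)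
  have h2 : ((univ : Finset (Fin (v + 1) → Lit n)).filter Gd).card ≤ (2 * n) ^ (v + 1) := by
    refine (card_le_univ _).trans ?_
    rw [Fintype.card_fun, Fintype.card_fin, Fintype.card_prod, Fintype.card_fin,
      Fintype.card_bool, mul_comm n 2]
  exact_mod_cast h2

/-- parameters of the second template -/
def PR (k : ℕ) : Finset (ℕ × ℕ × ℕ × ℕ) :=
  ((range k) ×ˢ ((range k) ×ˢ ((range k) ×ˢ (range k)))).filter fun t =>
    2 ≤ t.1 ∧ t.2.1 < t.1 ∧ t.1 ≤ t.2.2.2 ∧ t.2.2.1 < t.2.2.2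

theorem PR_card (k : ℕ) : (PR k).card ≤ k ^ 4 := by
  unfold PR
  refine (card_filter_le _ _).trans ?_
  rw [card_product, card_product, card_product, card_range]
  apply le_of_eq
  ring

theorem mem_PR {k g i h w : ℕ} : (g, i, h, w) ∈ PR k ↔
    (g < k ∧ i < k ∧ h < k ∧ w < k) ∧ 2 ≤ g ∧ i < g ∧ g ≤ w ∧ h < w := by
  unfold PR
  rw [mem_filter, mem_product, mem_product, mem_product]
  simp only [mem_range]

/-- the structure event -/
def USev (n m : ℕ) {N : ℕ} (e : Fin N ≃ Cl n) : Prop :=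
  (∃ v ∈ range n, ∃ w ∈ Ico 1 (v + 1), ∃ p ∈ (univ : Finset (Fin (v + 1) → Lit n)).filter Gd,
    toCl (tset (E1 (v + 1)) w (ex p)) ⊆ fst m e) ∨
  (∃ v ∈ range n, ∃ t ∈ PR (v + 1), ∃ p ∈ (univ : Finset (Fin (v + 1) → Lit n)).filter Gd,
    toCl (tset (E2 (v + 1) t.1 t.2.1 t.2.2.1) t.2.2.2 (ex p)) ⊆ fst m e)

theorem bool_aux1 {x y : Bool} (h : (!x) ≠ y) : y = x := by
  cases x <;> cases y <;> simp_all

theorem bool_aux2 {x y : Bool} (h : x ≠ y) : y = !x := by
  cases x <;> cases y <;> simp_all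

/-- structure of uniquely satisfiable formulas -/
theorem us_struct {N m : ℕ} {e : Fin N ≃ Cl n} (H : Finset (Cl n)) (hne : H.Nonempty)
    (hH : ∀ c ∈ H, (e.symm c : ℕ) < m) (a : Fin n → Bool)
    (hsat : ∀ c ∈ H, ∃ l ∈ c.val, a l.1 = l.2)
    (huniq : ∀ b : Fin n → Bool, (∀ c ∈ H, ∃ l ∈ c.val, b l.1 = l.2) →
      ∀ i : Fin n, (∃ c ∈ H, ∃ l ∈ c.val, l.1 = i) → b i = a i) : USev n m e := by
  classical
  let D : Fin n → Fin n → Prop := fun i j => i ≠ j ∧ ∃ c ∈ H, c.val = cs (i, a i) (j, a j)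
  have hirr : ∀ i, ¬ D i i := fun i h => h.1 rfl
  let V : Finset (Fin n) := univ.filter fun i => ∃ c ∈ H, ∃ l ∈ c.val, l.1 = i
  have hV : ∀ i, i ∈ V ↔ ∃ c ∈ H, ∃ l ∈ c.val, l.1 = i := by
    intro i
    simp [V]
  have hVne : V.Nonempty := by
    obtain ⟨c, hc⟩ := hne
    obtain ⟨l, hl, _⟩ := hsat c hc
    exact ⟨l.1, (hV _).2 ⟨c, hc, l, hl, rfl⟩⟩
  have hVcl : ∀ j ∈ V, ∀ i, D i j → i ∈ V := by
    intro j _ i hij
    obtain ⟨_, c, hc, hcv⟩ := hij
    rw [hV]
    refine ⟨c, hc, ng (i, a i), ?_, rfl⟩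
    rw [hcv]
    simp [cs]
  -- minimal closed set
  let F : Finset (Finset (Fin n)) := univ.filter fun U =>
    U.Nonempty ∧ U ⊆ V ∧ ∀ j ∈ U, ∀ i, D i j → i ∈ U
  have hF : ∀ U, U ∈ F ↔ U.Nonempty ∧ U ⊆ V ∧ ∀ j ∈ U, ∀ i, D i j → i ∈ U := by
    intro U
    simp [F]
  obtain ⟨U, hU, hUmin⟩ := exists_min_image F card ⟨V, (hF V).2 ⟨hVne, Subset.rfl, hVcl⟩⟩
  rw [hF] at hU
  obtain ⟨hUne, hUV, hUcl⟩ := hU
  have hreach : ∀ u ∈ U, ∀ v ∈ U, Relation.ReflTransGen D u v := by
    intro u hu v hv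
    set W := U.filter fun w => Relation.ReflTransGen D w v with hW
    have h1 : W ∈ F := by
      rw [hF]
      refine ⟨⟨v, ?_⟩, (filter_subset _ _).trans hUV, ?_⟩
      · rw [hW, mem_filter]
        exact ⟨hv, Relation.ReflTransGen.refl⟩
      · intro j hj i hij
        rw [hW, mem_filter] at hj ⊢
        exact ⟨hUcl j hj.1 i hij, Relation.ReflTransGen.head hij hj.2⟩
    have h2 : W = U := eq_of_subset_of_card_le (filter_subset _ _) (hUmin W h1)
    rw [← h2, hW, mem_filter] at hu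
    exact hu.2
  -- the flip
  have hflip : ∃ i j, i ∈ U ∧ j ∈ U ∧ i ≠ j ∧ ∃ c ∈ H, c.val = {(i, a i), (j, a j)} := by
    by_contra hno
    have hb : ∀ c ∈ H, ∃ l ∈ c.val, (fun i => if i ∈ U then !a i else a i) l.1 = l.2 := by
      intro c hc
      by_contra hcon
      push Not at hcon
      obtain ⟨l1, l2, hl12, hcv⟩ := card_eq_two.1 c.2.1
      have hvar : l1.1 ≠ l2.1 := by
        intro h
        have := c.2.2
        rw [hcv, image_insert, image_singleton, h] at this
        simp at this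
      have key : ∀ l l' : Lit n, l.1 ≠ l'.1 → c.val = {l, l'} → a l.1 = l.2 → False := by
        intro l l' hll' hcv hl
        have h1 := hcon l (by rw [hcv]; simp)
        have h2 := hcon l' (by rw [hcv]; simp)
        have hlU : l.1 ∈ U := by
          by_contra h3
          rw [if_neg h3] at h1
          exact h1 hl
        by_cases h3 : l'.1 ∈ U
        · rw [if_pos h3] at h2
          apply hno
          refine ⟨l.1, l'.1, hlU, h3, hll', c, hc, ?_⟩
          rw [hcv]
          have e1 : l = (l.1, a l.1) := Prod.ext rfl hl.symm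
          have e2 : l' = (l'.1, a l'.1) := by
            refine Prod.ext rfl ?_
            exact bool_aux1 h2
          rw [← e1, ← e2]
        · rw [if_neg h3] at h2
          apply h3
          apply hUcl l.1 hlU
          refine ⟨fun h => hll' h.symm, c, hc, ?_⟩
          rw [hcv]
          unfold cs
          have e1 : l = (l.1, a l.1) := Prod.ext rfl hl.symm
          have e2 : l' = ng (l'.1, a l'.1) := by
            refine Prod.ext rfl ?_
            exact bool_aux2 h2
          rw [← e1, ← e2, Finset.pair_comm]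
      obtain ⟨l, hl, hal⟩ := hsat c hc
      rw [hcv, mem_insert, mem_singleton] at hl
      rcases hl with rfl | rfl
      · exact key _ _ hvar hcv hal
      · exact key _ _ (Ne.symm hvar) (by rw [hcv, Finset.pair_comm]) hal
    obtain ⟨u, hu⟩ := hUne
    have := huniq (fun i => if i ∈ U then !a i else a i) hb u ((hV u).1 (hUV hu))
    simp only [if_pos hu] at this
    cases h : a u <;> simp [h] at this
  obtain ⟨u, v, hu, hv, huv, c0, hc0, hc0v⟩ := hflip
  have t1 : Relation.TransGen D u v := by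
    rcases Relation.reflTransGen_iff_eq_or_transGen.1 (hreach u hu v hv) with h | h
    · exact absurd h.symm huv
    · exact h
  have t2 : Relation.TransGen D v u := by
    rcases Relation.reflTransGen_iff_eq_or_transGen.1 (hreach v hv u hu) with h | h
    · exact absurd h huv
    · exact h
  have hk : ∀ (k : ℕ) (x : ℕ → Fin n), (∀ s t, s < t → t < k → x s ≠ x t) → k ≤ n := by
    intro k x hx
    have h1 : ((range k).image x).card = k := by
      rw [card_image_of_injOn, card_range]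
      intro s hs t ht h
      rw [mem_coe, mem_range] at hs ht
      rcases lt_trichotomy s t with h2 | h2 | h2
      · exact absurd h (hx s t h2 ht)
      · exact h2
      · exact absurd h.symm (hx t s h2 hs)
    rw [← h1]
    refine (card_le_univ _).trans ?_
    rw [Fintype.card_fin]
  have build : ∀ (v' : ℕ) (x : ℕ → Fin n) (E : Finset (ℕ × ℕ)) (w : ℕ),
      (∀ s t, s < t → t < v' + 1 → x s ≠ x t) → w < v' + 1 → x 0 = u → x w = v →
      (∀ st ∈ E, st.1 < v' + 1 ∧ st.2 < v' + 1 ∧ D (x st.1) (x st.2)) →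
      ∃ p ∈ (univ : Finset (Fin (v' + 1) → Lit n)).filter Gd,
        toCl (tset E w (ex p)) ⊆ fst m e := by
    intro v' x E w hx hw h0 hxw hE
    refine ⟨fun t => (x t, a (x t)), ?_, ?_⟩
    · rw [mem_filter]
      refine ⟨mem_univ _, ?_⟩
      intro s t h
      simp only at h
      rcases lt_trichotomy (s : ℕ) (t : ℕ) with h2 | h2 | h2
      · exact absurd h (hx _ _ h2 t.2)
      · exact Fin.ext h2
      · exact absurd h.symm (hx _ _ h2 s.2)
    · intro c hc
      rw [mem_toCl] at hc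
      have hex : ∀ t, t < v' + 1 →
          ex (v := v') (fun t : Fin (v' + 1) => ((x t, a (x t)) : Lit n)) t = (x t, a (x t)) :=
        fun t ht => ex_apply (v := v') _ ht
      unfold tset at hc
      rw [mem_insert, mem_image] at hc
      rw [mem_fst]
      rcases hc with hc | ⟨st, hst, hc⟩
      · rw [hex 0 (by omega), hex w hw, h0, hxw, ← hc0v] at hc
        rw [Subtype.ext hc]
        exact hH c0 hc0
      · obtain ⟨h1, h2, h3⟩ := hE st hst
        rw [hex _ h1, hex _ h2] at hc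
        obtain ⟨_, c1, hc1, hc1v⟩ := h3
        rw [← hc1v] at hc
        rw [← Subtype.ext hc]
        exact hH c1 hc1
  rcases ears hirr huv t1 t2 with ⟨k, w, x, hw0, hwk, hx, hst, hlast, h0, hw⟩ |
    ⟨k, g, i, h, w, x, hg, hgw, hwk, hi, hh, hx, hst, hfirst, hmid, hlast, h0, hw⟩
  · left
    have hkn := hk k x hx
    obtain ⟨v', rfl⟩ : ∃ v', k = v' + 1 := ⟨k - 1, by omega⟩
    refine ⟨v', by rw [mem_range]; omega, w, by rw [mem_Ico]; omega,
      build v' x _ w hx hwk h0 hw ?_⟩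
    intro st hst'
    obtain ⟨a1, a2, a3⟩ := E1_mem (by omega) hst'
    refine ⟨a1, a2, ?_⟩
    unfold E1 at hst'
    rw [mem_image] at hst'
    obtain ⟨t, ht, rfl⟩ := hst'
    rw [mem_range] at ht
    simp only
    unfold pd1
    by_cases c1 : t = 0
    · rw [if_pos c1, c1]
      exact hlast
    · rw [if_neg c1]
      exact hst t (by omega) ht
  · right
    have hkn := hk k x hx
    obtain ⟨v', rfl⟩ : ∃ v', k = v' + 1 := ⟨k - 1, by omega⟩
    refine ⟨v', by rw [mem_range]; omega, (g, i, h, w), mem_PR.2 (by omega),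
      build v' x _ w hx hwk h0 hw ?_⟩
    intro st hst'
    obtain ⟨a1, a2, a3⟩ := E2_mem hg hgw hwk hi hh hst'
    refine ⟨a1, a2, ?_⟩
    unfold E2 at hst'
    rw [mem_insert, mem_image] at hst'
    rcases hst' with rfl | ⟨t, ht, rfl⟩
    · exact hlast
    · rw [mem_range] at ht
      simp only
      unfold pd2
      by_cases c1 : t = 0
      · rw [if_pos c1, c1]
        exact hfirst
      · rw [if_neg c1]
        by_cases c2 : t = g
        · rw [if_pos c2, c2]
          exact hmid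
        · rw [if_neg c2]
          exact hst t (by omega) ht c2

/-- geometric sums -/
theorem geom_bound (j : ℕ) {r : ℝ} (h0 : 0 ≤ r) (h1 : r < 1) (M : ℕ) :
    ∑ v ∈ range M, ((v : ℝ) + 1) ^ j * r ^ v ≤ j.factorial / (1 - r) ^ (j + 1) := by
  have hn : ‖r‖ < 1 := by rw [Real.norm_of_nonneg h0]; exact h1
  have hs := summable_choose_mul_geometric_of_norm_lt_one j hn
  have ht := tsum_choose_mul_geometric_of_norm_lt_one j hn
  have h2 : ∀ v : ℕ, ((v : ℝ) + 1) ^ j * r ^ v ≤ j.factorial * (((v + j).choose j : ℕ) * r ^ v) := by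
    intro v
    rw [← mul_assoc]
    apply mul_le_mul_of_nonneg_right _ (pow_nonneg h0 v)
    have h3 : (v + 1) ^ j ≤ j.factorial * (v + j).choose j := by
      rw [← Nat.ascFactorial_eq_factorial_mul_choose]
      exact Nat.pow_succ_le_ascFactorial (v + 1) j
    exact_mod_cast h3
  calc ∑ v ∈ range M, ((v : ℝ) + 1) ^ j * r ^ v
      ≤ ∑ v ∈ range M, (j.factorial : ℝ) * (((v + j).choose j : ℕ) * r ^ v) :=
        sum_le_sum fun v _ => h2 v
    _ = j.factorial * ∑ v ∈ range M, ((((v + j).choose j : ℕ) : ℝ) * r ^ v) := by rw [mul_sum]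
    _ ≤ j.factorial * ∑' v : ℕ, ((((v + j).choose j : ℕ) : ℝ) * r ^ v) := by
        apply mul_le_mul_of_nonneg_left _ (Nat.cast_nonneg _)
        exact hs.sum_le_tsum _ fun v _ => mul_nonneg (Nat.cast_nonneg _) (pow_nonneg h0 v)
    _ = _ := by rw [ht]; ring

/-- the first moment bound for uniquely satisfiable subformulas -/
theorem us_bound {N m : ℕ} (hN : Fintype.card (Cl n) = N) (hm : m ≤ N) {q r : ℝ}
    (hq : (m : ℝ) / N = q) (hr : q * (2 * n) = r) (hr1 : r < 1) :
    ∃ B : Finset (Fin N ≃ Cl n), (∀ e, USev n m e → e ∈ B) ∧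
      (B.card : ℝ) ≤ (q * (1 / (1 - r) ^ 2) + q ^ 2 * (24 / (1 - r) ^ 5)) *
        Fintype.card (Fin N ≃ Cl n) := by
  classical
  set Z : ℝ := (Fintype.card (Fin N ≃ Cl n) : ℝ) with hZ
  have hZ0 : 0 ≤ Z := Nat.cast_nonneg _
  have hq0 : 0 ≤ q := by rw [← hq]; positivity
  have hr0 : 0 ≤ r := by rw [← hr]; positivity
  set B1 := (univ : Finset (Fin N ≃ Cl n)).filter fun e => ∃ v ∈ range n, ∃ w ∈ Ico 1 (v + 1),
    ∃ p ∈ (univ : Finset (Fin (v + 1) → Lit n)).filter Gd,
    toCl (tset (E1 (v + 1)) w (ex p)) ⊆ fst m e with hB1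
  set B2 := (univ : Finset (Fin N ≃ Cl n)).filter fun e => ∃ v ∈ range n, ∃ t ∈ PR (v + 1),
    ∃ p ∈ (univ : Finset (Fin (v + 1) → Lit n)).filter Gd,
    toCl (tset (E2 (v + 1) t.1 t.2.1 t.2.2.1) t.2.2.2 (ex p)) ⊆ fst m e with hB2
  refine ⟨B1 ∪ B2, ?_, ?_⟩
  · intro e he
    rw [mem_union, hB1, hB2, mem_filter, mem_filter]
    rcases he with he | he
    · exact Or.inl ⟨mem_univ _, he⟩
    · exact Or.inr ⟨mem_univ _, he⟩
  have b1 : (B1.card : ℝ) ≤ q * (1 / (1 - r) ^ 2) * Z := by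
    have h1 : B1.card ≤ ∑ v ∈ range n, ∑ w ∈ Ico 1 (v + 1),
        ((univ : Finset (Fin N ≃ Cl n)).filter fun e =>
          ∃ p ∈ (univ : Finset (Fin (v + 1) → Lit n)).filter Gd,
          toCl (tset (E1 (v + 1)) w (ex p)) ⊆ fst m e).card :=
      (card_exists_le _ _).trans (sum_le_sum fun v _ => card_exists_le _ _)
    have h2 : (B1.card : ℝ) ≤ ∑ v ∈ range n, ∑ w ∈ Ico 1 (v + 1),
        (((univ : Finset (Fin N ≃ Cl n)).filter fun e =>
          ∃ p ∈ (univ : Finset (Fin (v + 1) → Lit n)).filter Gd,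
          toCl (tset (E1 (v + 1)) w (ex p)) ⊆ fst m e).card : ℝ) := by exact_mod_cast h1
    refine h2.trans ?_
    calc _ ≤ ∑ v ∈ range n, ∑ w ∈ Ico 1 (v + 1), q * r ^ v * Z := by
          refine sum_le_sum fun v _ => sum_le_sum fun w hw => ?_
          rw [mem_Ico] at hw
          have h3 := template_bound hN hm (E := E1 (v + 1)) (w := w) (v := v) (by omega)
            hw.2 (fun st hst => E1_mem (by omega) hst)
          refine h3.trans ?_
          rw [E1_card, hq]
          apply mul_le_mul_of_nonneg_right _ hZ0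
          calc (2 * (n : ℝ)) ^ (v + 1) * q ^ (v + 1 + 1) = q * (q * (2 * n)) ^ (v + 1) := by
                rw [mul_pow]; ring
            _ = q * r ^ (v + 1) := by rw [hr]
            _ ≤ q * r ^ v := by
                apply mul_le_mul_of_nonneg_left _ hq0
                exact pow_le_pow_of_le_one hr0 hr1.le (by omega)
      _ ≤ ∑ v ∈ range n, q * Z * (((v : ℝ) + 1) ^ 1 * r ^ v) := by
          refine sum_le_sum fun v _ => ?_
          rw [sum_const, Nat.card_Ico, nsmul_eq_mul]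
          have h4 : ((v + 1 - 1 : ℕ) : ℝ) ≤ ((v : ℝ) + 1) ^ 1 := by
            rw [Nat.add_sub_cancel, pow_one]
            linarith
          have h5 := mul_le_mul_of_nonneg_right h4
            (show 0 ≤ q * r ^ v * Z by positivity)
          calc _ ≤ ((v : ℝ) + 1) ^ 1 * (q * r ^ v * Z) := h5
            _ = _ := by ring
      _ = q * Z * ∑ v ∈ range n, (((v : ℝ) + 1) ^ 1 * r ^ v) := by rw [mul_sum]
      _ ≤ q * Z * ((1 : ℕ).factorial / (1 - r) ^ (1 + 1)) :=
          mul_le_mul_of_nonneg_left (geom_bound 1 hr0 hr1 n) (by positivity)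
      _ = _ := by
          rw [Nat.factorial_one, Nat.cast_one]
          ring
  have b2 : (B2.card : ℝ) ≤ q ^ 2 * (24 / (1 - r) ^ 5) * Z := by
    have h1 : B2.card ≤ ∑ v ∈ range n, ∑ t ∈ PR (v + 1),
        ((univ : Finset (Fin N ≃ Cl n)).filter fun e =>
          ∃ p ∈ (univ : Finset (Fin (v + 1) → Lit n)).filter Gd,
          toCl (tset (E2 (v + 1) t.1 t.2.1 t.2.2.1) t.2.2.2 (ex p)) ⊆ fst m e).card :=
      (card_exists_le _ _).trans (sum_le_sum fun v _ => card_exists_le _ _)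
    have h2 : (B2.card : ℝ) ≤ ∑ v ∈ range n, ∑ t ∈ PR (v + 1),
        (((univ : Finset (Fin N ≃ Cl n)).filter fun e =>
          ∃ p ∈ (univ : Finset (Fin (v + 1) → Lit n)).filter Gd,
          toCl (tset (E2 (v + 1) t.1 t.2.1 t.2.2.1) t.2.2.2 (ex p)) ⊆ fst m e).card : ℝ) := by
      exact_mod_cast h1
    refine h2.trans ?_
    calc _ ≤ ∑ v ∈ range n, ∑ t ∈ PR (v + 1), q ^ 2 * r ^ v * Z := by
          refine sum_le_sum fun v _ => sum_le_sum fun t ht => ?_
          obtain ⟨g, i, h, w⟩ := t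
          rw [mem_PR] at ht
          obtain ⟨⟨_, _, _, hwk⟩, hg, hi, hgw, hh⟩ := ht
          have h3 := template_bound hN hm (E := E2 (v + 1) g i h) (w := w) (v := v) (by omega)
            hwk (fun st hst => E2_mem hg hgw hwk hi hh hst)
          refine h3.trans ?_
          rw [E2_card hg hgw hwk hi hh, hq]
          apply mul_le_mul_of_nonneg_right _ hZ0
          calc (2 * (n : ℝ)) ^ (v + 1) * q ^ (v + 1 + 1 + 1) =
                q ^ 2 * (q * (2 * n)) ^ (v + 1) := by
                rw [mul_pow]; ring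
            _ = q ^ 2 * r ^ (v + 1) := by rw [hr]
            _ ≤ q ^ 2 * r ^ v := by
                apply mul_le_mul_of_nonneg_left _ (by positivity)
                exact pow_le_pow_of_le_one hr0 hr1.le (by omega)
      _ ≤ ∑ v ∈ range n, q ^ 2 * Z * (((v : ℝ) + 1) ^ 4 * r ^ v) := by
          refine sum_le_sum fun v _ => ?_
          rw [sum_const, nsmul_eq_mul]
          have h4 : ((PR (v + 1)).card : ℝ) ≤ ((v : ℝ) + 1) ^ 4 := by
            have := PR_card (v + 1)
            exact_mod_cast this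
          have h5 := mul_le_mul_of_nonneg_right h4
            (show 0 ≤ q ^ 2 * r ^ v * Z by positivity)
          calc _ ≤ ((v : ℝ) + 1) ^ 4 * (q ^ 2 * r ^ v * Z) := h5
            _ = _ := by ring
      _ = q ^ 2 * Z * ∑ v ∈ range n, (((v : ℝ) + 1) ^ 4 * r ^ v) := by rw [mul_sum]
      _ ≤ q ^ 2 * Z * ((4 : ℕ).factorial / (1 - r) ^ (4 + 1)) :=
          mul_le_mul_of_nonneg_left (geom_bound 4 hr0 hr1 n) (by positivity)
      _ = _ := by
          have : ((4 : ℕ).factorial : ℝ) = 24 := by norm_num [Nat.factorial]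
          rw [this]
          ring
  calc (((B1 ∪ B2).card : ℕ) : ℝ) ≤ (B1.card : ℝ) + B2.card := by
        exact_mod_cast card_union_le _ _
    _ ≤ q * (1 / (1 - r) ^ 2) * Z + q ^ 2 * (24 / (1 - r) ^ 5) * Z := add_le_add b1 b2
    _ = _ := by ring

end Pool.Agent.U147.Sat
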